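import Mathlib

set_option autoImplicit false

namespace Pool.Agent.Helper433

open Finset

/-- The real matrix `P` is a sum of at most `r` products of a function of the row and a function
of the column. -/
def RK {α β : Type*} (r : ℕ) (P : α → β → ℝ) : Prop :=
  ∃ (c : α → Fin r → ℝ) (φ : Fin r → β → ℝ), ∀ a b, P a b = ∑ i, c a i * φ i b

lemma RK.of_fintype {α β ι : Type*} [Fintype ι] {P : α → β → ℝ} (c : α → ι → ℝ) (φ : ι → β → ℝ)
    (h : ∀ a b, P a b = ∑ i, c a i * φ i b) {r : ℕ} (hr : Fintype.card ι = r) : RK r P := by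
  subst hr
  refine ⟨fun a i => c a ((Fintype.equivFin ι).symm i), fun i => φ ((Fintype.equivFin ι).symm i),
    fun a b => ?_⟩
  rw [h a b]
  exact (Equiv.sum_comp (Fintype.equivFin ι).symm (fun i => c a i * φ i b)).symm

lemma RK.add {α β : Type*} {r s : ℕ} {P Q : α → β → ℝ} (hP : RK r P) (hQ : RK s Q) :
    RK (r + s) (fun a b => P a b + Q a b) := by
  obtain ⟨c, φ, h⟩ := hP
  obtain ⟨d, ψ, k⟩ := hQ
  refine RK.of_fintype (ι := Fin r ⊕ Fin s) (fun a => Sum.elim (c a) (d a)) (Sum.elim φ ψ)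
    (fun a b => ?_) (by simp)
  rw [Fintype.sum_sum_type, h, k]
  simp

lemma RK.mul {α β : Type*} {r s : ℕ} {P Q : α → β → ℝ} (hP : RK r P) (hQ : RK s Q) :
    RK (r * s) (fun a b => P a b * Q a b) := by
  obtain ⟨c, φ, h⟩ := hP
  obtain ⟨d, ψ, k⟩ := hQ
  refine RK.of_fintype (ι := Fin r × Fin s) (fun a i => c a i.1 * d a i.2)
    (fun i b => φ i.1 b * ψ i.2 b) (fun a b => ?_) (by simp)
  rw [h, k, Finset.sum_mul_sum, Fintype.sum_prod_type]
  refine Finset.sum_congr rfl fun i _ => Finset.sum_congr rfl fun j _ => ?_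
  ring

lemma RK.row {α β : Type*} (f : α → ℝ) : RK 1 (fun (a : α) (_ : β) => f a) :=
  ⟨fun a _ => f a, fun _ _ => 1, fun a b => by simp⟩

lemma RK.col {α β : Type*} (g : β → ℝ) : RK 1 (fun (_ : α) (b : β) => g b) :=
  ⟨fun _ _ => 1, fun _ b => g b, fun a b => by simp⟩

lemma RK.sep {α β : Type*} (f : α → ℝ) (g : β → ℝ) : RK 2 (fun (a : α) (b : β) => f a + g b) :=
  RK.add (RK.row f) (RK.col g)

lemma RK.mul_row {α β : Type*} {r : ℕ} {P : α → β → ℝ} (hP : RK r P) (f : α → ℝ) :
    RK r (fun a b => f a * P a b) := by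
  have := RK.mul (RK.row (β := β) f) hP
  rwa [one_mul] at this

lemma RK.mul_col {α β : Type*} {r : ℕ} {P : α → β → ℝ} (hP : RK r P) (g : β → ℝ) :
    RK r (fun a b => g b * P a b) := by
  have := RK.mul (RK.col (α := α) g) hP
  rwa [one_mul] at this

lemma RK.neg {α β : Type*} {r : ℕ} {P : α → β → ℝ} (hP : RK r P) :
    RK r (fun a b => - P a b) := by
  have := RK.mul_row hP (fun _ => (-1 : ℝ))
  simpa using this

lemma RK.sub_sep {α β : Type*} {r : ℕ} {P : α → β → ℝ} (hP : RK r P) (f : α → ℝ) (g : β → ℝ) :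
    RK (r + 2) (fun a b => P a b - (f a + g b)) := by
  have := RK.add hP (RK.sep (fun a => - f a) (fun b => - g b))
  refine this.imp fun c h => h.imp fun φ h a b => ?_
  rw [← h a b]
  ring

lemma RK.mono {α β : Type*} {r s : ℕ} (hrs : r ≤ s) {P : α → β → ℝ} (hP : RK r P) : RK s P := by
  obtain ⟨k, rfl⟩ := Nat.exists_eq_add_of_le hrs
  have h0 : RK k (fun (_ : α) (_ : β) => (0 : ℝ)) := ⟨fun _ _ => 0, fun _ _ => 0, by simp⟩
  have := RK.add hP h0
  simpa using this

lemma RK.prod {α β ι : Type*} {r : ℕ} (P : ι → α → β → ℝ) (s : Finset ι)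
    (h : ∀ i ∈ s, RK r (P i)) : RK (r ^ s.card) (fun a b => ∏ i ∈ s, P i a b) := by
  classical
  induction s using Finset.induction_on with
  | empty => simpa using RK.row (β := β) (fun _ : α => (1 : ℝ))
  | insert i s hi ih =>
    have h1 := ih (fun j hj => h j (Finset.mem_insert_of_mem hj))
    have h2 := RK.mul (h i (Finset.mem_insert_self _ _)) h1
    rw [Finset.card_insert_of_notMem hi, pow_succ, mul_comm]
    simpa [Finset.prod_insert hi] using h2

/-- If `P` has low rank and every row in `A` has few nonzero entries on `B`, then `P` vanishes on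
`A × B'` for a large `B' ⊆ B`. -/
lemma exv {α β : Type*} (A : Finset α) (B : Finset β) (P : α → β → ℝ) (ρ : ℕ)
    (hRK : RK ρ P) (θ : ℝ) (hθ0 : 0 ≤ θ)
    (hrow : ∀ a ∈ A, ((B.filter (fun b => P a b ≠ 0)).card : ℝ) ≤ θ * B.card)
    (hθ : θ * ρ ≤ 1 / 2) :
    ∃ B' ⊆ B, (B.card : ℝ) ≤ 2 * B'.card ∧ ∀ a ∈ A, ∀ b ∈ B', P a b = 0 := by
  classical
  obtain ⟨c, φ, h⟩ := hRK
  obtain ⟨t, hts, htspan, htli⟩ := exists_linearIndependent ℝ ((A.image P : Finset (β → ℝ)) : Set (β → ℝ))
  have htfin : t.Finite := (Finset.finite_toSet _).subset hts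
  letI : Fintype t := htfin.fintype
  set T : Finset (β → ℝ) := t.toFinset with hT
  have hTmem : ∀ f, f ∈ T ↔ f ∈ t := fun f => by simp [hT]
  have hTcard : T.card ≤ ρ := by
    have hle := linearIndependent_le_span' (fun x : t => (x : β → ℝ)) htli
      (Set.range φ) (by
        rintro f ⟨⟨x, hx⟩, rfl⟩
        have hx' := hts hx
        simp only [Finset.coe_image, Set.mem_image, Finset.mem_coe] at hx'
        obtain ⟨a, _, rfl⟩ := hx'
        have : P a = ∑ i, c a i • φ i := by
          funext b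
          simp [h a b]
        simp only [SetLike.mem_coe]
        rw [this]
        exact Submodule.sum_mem _ fun i _ => Submodule.smul_mem _ _ (Submodule.subset_span ⟨i, rfl⟩))
    rw [Cardinal.mk_fintype, Nat.cast_le] at hle
    have h1 : Fintype.card (Set.range φ) ≤ ρ := by
      have := Fintype.card_range_le φ
      simpa using this
    rw [hT, Set.toFinset_card]
    exact hle.trans h1
  refine ⟨B.filter (fun b => ∀ f ∈ T, f b = 0), Finset.filter_subset _ _, ?_, ?_⟩
  · have hsub : B ⊆ B.filter (fun b => ∀ f ∈ T, f b = 0) ∪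
        T.biUnion (fun f => B.filter (fun b => f b ≠ 0)) := by
      intro b hb
      by_cases hbf : ∀ f ∈ T, f b = 0
      · exact Finset.mem_union_left _ (Finset.mem_filter.mpr ⟨hb, hbf⟩)
      · push Not at hbf
        obtain ⟨f, hf, hfb⟩ := hbf
        exact Finset.mem_union_right _ (Finset.mem_biUnion.mpr ⟨f, hf, Finset.mem_filter.mpr ⟨hb, hfb⟩⟩)
    have h1 := (Finset.card_le_card hsub).trans (Finset.card_union_le _ _)
    have h2 : ((T.biUnion (fun f => B.filter (fun b => f b ≠ 0))).card : ℝ) ≤ ρ * (θ * B.card) := by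
      have h3 : ((T.biUnion (fun f => B.filter (fun b => f b ≠ 0))).card : ℝ) ≤
          ∑ f ∈ T, ((B.filter (fun b => f b ≠ 0)).card : ℝ) := by
        exact_mod_cast Finset.card_biUnion_le
      have h4 : ∑ f ∈ T, ((B.filter (fun b => f b ≠ 0)).card : ℝ) ≤ ∑ f ∈ T, θ * B.card := by
        apply Finset.sum_le_sum
        intro f hf
        have := hts ((hTmem f).mp hf)
        simp only [Finset.coe_image, Set.mem_image, Finset.mem_coe] at this
        obtain ⟨a, ha, rfl⟩ := this
        exact hrow a ha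
      rw [Finset.sum_const, nsmul_eq_mul] at h4
      refine h3.trans (h4.trans ?_)
      exact mul_le_mul_of_nonneg_right (by exact_mod_cast hTcard) (by positivity)
    have h5 : (B.card : ℝ) ≤ ((B.filter (fun b => ∀ f ∈ T, f b = 0)).card : ℝ) +
        ((T.biUnion (fun f => B.filter (fun b => f b ≠ 0))).card : ℝ) := by exact_mod_cast h1
    have h6 : (ρ : ℝ) * (θ * B.card) ≤ 1 / 2 * B.card := by
      have : (ρ : ℝ) * (θ * B.card) = (θ * ρ) * B.card := by ring
      rw [this]
      exact mul_le_mul_of_nonneg_right hθ (by positivity)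
    linarith
  · intro a ha b hb
    rw [Finset.mem_filter] at hb
    have hmem : P a ∈ Submodule.span ℝ t := by
      rw [htspan]
      exact Submodule.subset_span (by simp only [Finset.coe_image]; exact ⟨a, ha, rfl⟩)
    have : ∀ f ∈ Submodule.span ℝ t, f b = 0 := by
      intro f hf
      induction hf using Submodule.span_induction with
      | mem x hx => exact hb.2 x ((hTmem x).mpr hx)
      | zero => rfl
      | add x y _ _ hx hy => simp [hx, hy]
      | smul c x _ hx => simp [hx]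
    exact this _ hmem

/-- A median: at least half of the points are on each side. -/
lemma exists_median {α : Type*} (A : Finset α) (hA : A.Nonempty) (f : α → ℝ) :
    ∃ m : ℝ, A.card ≤ 2 * (A.filter (fun a => f a ≤ m)).card ∧
      A.card ≤ 2 * (A.filter (fun a => m ≤ f a)).card := by
  classical
  set V : Finset ℝ := (A.image f).filter (fun m => A.card ≤ 2 * (A.filter (fun a => f a ≤ m)).card)
    with hV
  have hVne : V.Nonempty := by
    obtain ⟨a0, ha0, hmax⟩ := Finset.exists_max_image A f hA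
    refine ⟨f a0, ?_⟩
    rw [hV, Finset.mem_filter]
    refine ⟨Finset.mem_image_of_mem f ha0, ?_⟩
    rw [Finset.filter_true_of_mem hmax]
    omega
  obtain ⟨m, hm, hmin⟩ := Finset.exists_min_image V id hVne
  rw [hV, Finset.mem_filter] at hm
  refine ⟨m, hm.2, ?_⟩
  by_contra hcon
  push Not at hcon
  -- the set of points strictly below `m`
  have hpart : (A.filter (fun a => f a < m)).card + (A.filter (fun a => m ≤ f a)).card = A.card := by
    have := Finset.card_filter_add_card_filter_not (s := A) (fun a => f a < m)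
    simpa [not_lt] using this
  have hlt : A.card < 2 * (A.filter (fun a => f a < m)).card := by omega
  have hne : (A.filter (fun a => f a < m)).Nonempty := by
    rw [← Finset.card_pos]; omega
  obtain ⟨a1, ha1, hmax1⟩ := Finset.exists_max_image _ f hne
  rw [Finset.mem_filter] at ha1
  have hsub : A.filter (fun a => f a < m) ⊆ A.filter (fun a => f a ≤ f a1) := by
    intro a ha
    rw [Finset.mem_filter] at ha ⊢
    exact ⟨ha.1, hmax1 a (Finset.mem_filter.mpr ha)⟩
  have hin : f a1 ∈ V := by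
    rw [hV, Finset.mem_filter]
    refine ⟨Finset.mem_image_of_mem f ha1.1, ?_⟩
    have := Finset.card_le_card hsub
    omega
  have := hmin (f a1) hin
  simp only [id] at this
  linarith [ha1.2]

/-- Comparison of a row function and a column function on a large rectangle. -/
lemma cmp {α β : Type*} (A : Finset α) (B : Finset β) (hA : A.Nonempty) (hB : B.Nonempty)
    (f : α → ℝ) (g : β → ℝ) :
    ∃ A' ⊆ A, ∃ B' ⊆ B, A.card ≤ 2 * A'.card ∧ B.card ≤ 2 * B'.card ∧
      ((∀ a ∈ A', ∀ b ∈ B', f a ≤ g b) ∨ (∀ a ∈ A', ∀ b ∈ B', g b ≤ f a)) := by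
  classical
  obtain ⟨m, hm1, hm2⟩ := exists_median A hA f
  obtain ⟨l, hl1, hl2⟩ := exists_median B hB g
  rcases le_total m l with h | h
  · refine ⟨A.filter (fun a => f a ≤ m), Finset.filter_subset _ _,
      B.filter (fun b => l ≤ g b), Finset.filter_subset _ _, hm1, hl2, Or.inl ?_⟩
    intro a ha b hb
    rw [Finset.mem_filter] at ha hb
    linarith [ha.2, hb.2]
  · refine ⟨A.filter (fun a => m ≤ f a), Finset.filter_subset _ _,
      B.filter (fun b => g b ≤ l), Finset.filter_subset _ _, hm2, hl1, Or.inr ?_⟩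
    intro a ha b hb
    rw [Finset.mem_filter] at ha hb
    linarith [ha.2, hb.2]

lemma nonempty_of_card_le {α : Type*} {A A' : Finset α} (hA : A.Nonempty) {k : ℕ}
    (h : A.card ≤ k * A'.card) : A'.Nonempty := by
  rw [← Finset.card_pos] at hA ⊢
  by_contra hc
  have : A'.card = 0 := by omega
  rw [this] at h
  omega

/-- Simultaneous comparison for a finite family. -/
lemma cmpfam {α β ι : Type*} (T : Finset ι) (f : ι → α → ℝ) (g : ι → β → ℝ)
    (A : Finset α) (B : Finset β) (hA : A.Nonempty) (hB : B.Nonempty) :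
    ∃ A' ⊆ A, ∃ B' ⊆ B, A.card ≤ 2 ^ T.card * A'.card ∧ B.card ≤ 2 ^ T.card * B'.card ∧
      ∀ t ∈ T, ((∀ a ∈ A', ∀ b ∈ B', f t a ≤ g t b) ∨ (∀ a ∈ A', ∀ b ∈ B', g t b ≤ f t a)) := by
  classical
  induction T using Finset.induction_on with
  | empty => exact ⟨A, Finset.Subset.refl _, B, Finset.Subset.refl _, by simp, by simp, by simp⟩
  | insert t T ht ih =>
    obtain ⟨A1, hA1, B1, hB1, hcA, hcB, hT⟩ := ih
    have hA1n : A1.Nonempty := nonempty_of_card_le hA hcA
    have hB1n : B1.Nonempty := nonempty_of_card_le hB hcB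
    obtain ⟨A2, hA2, B2, hB2, hcA2, hcB2, h2⟩ := cmp A1 B1 hA1n hB1n (f t) (g t)
    refine ⟨A2, hA2.trans hA1, B2, hB2.trans hB1, ?_, ?_, ?_⟩
    · rw [Finset.card_insert_of_notMem ht, pow_succ]
      calc A.card ≤ 2 ^ T.card * A1.card := hcA
        _ ≤ 2 ^ T.card * (2 * A2.card) := Nat.mul_le_mul_left _ hcA2
        _ = 2 ^ T.card * 2 * A2.card := by ring
    · rw [Finset.card_insert_of_notMem ht, pow_succ]
      calc B.card ≤ 2 ^ T.card * B1.card := hcB
        _ ≤ 2 ^ T.card * (2 * B2.card) := Nat.mul_le_mul_left _ hcB2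
        _ = 2 ^ T.card * 2 * B2.card := by ring
    · intro s hs
      rcases Finset.mem_insert.mp hs with rfl | hs
      · exact h2
      · rcases hT s hs with h | h
        · exact Or.inl fun a ha b hb => h a (hA2 ha) b (hB2 hb)
        · exact Or.inr fun a ha b hb => h a (hA2 ha) b (hB2 hb)

/-- Rounding a bilinear form on `[0,1]`-valued functions to sets. -/
lemma round_sets {α β : Type*} (A : Finset α) (B : Finset β) (w : α → β → ℝ)
    (F : α → ℝ) (G : β → ℝ) (hF0 : ∀ a ∈ A, 0 ≤ F a) (hF1 : ∀ a ∈ A, F a ≤ 1)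
    (hG0 : ∀ b ∈ B, 0 ≤ G b) (hG1 : ∀ b ∈ B, G b ≤ 1) :
    ∃ A' ⊆ A, ∃ B' ⊆ B, ∑ a ∈ A, ∑ b ∈ B, F a * G b * w a b ≤ ∑ a ∈ A', ∑ b ∈ B', w a b := by
  classical
  -- first round F
  have h1 : ∃ A' ⊆ A, ∑ a ∈ A, ∑ b ∈ B, F a * G b * w a b ≤ ∑ a ∈ A', ∑ b ∈ B, G b * w a b := by
    refine ⟨A.filter (fun a => 0 ≤ ∑ b ∈ B, G b * w a b), Finset.filter_subset _ _, ?_⟩
    rw [Finset.sum_filter]
    apply Finset.sum_le_sum
    intro a ha
    have e : ∑ b ∈ B, F a * G b * w a b = F a * ∑ b ∈ B, G b * w a b := by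
      rw [Finset.mul_sum]
      exact Finset.sum_congr rfl fun b _ => by ring
    rw [e]
    split_ifs with h
    · calc F a * ∑ b ∈ B, G b * w a b ≤ 1 * ∑ b ∈ B, G b * w a b :=
            mul_le_mul_of_nonneg_right (hF1 a ha) h
        _ = _ := one_mul _
    · push Not at h
      exact mul_nonpos_of_nonneg_of_nonpos (hF0 a ha) h.le
  obtain ⟨A', hA', hA1⟩ := h1
  refine ⟨A', hA', B.filter (fun b => 0 ≤ ∑ a ∈ A', w a b), Finset.filter_subset _ _, ?_⟩
  refine hA1.trans ?_
  rw [Finset.sum_comm, Finset.sum_comm (s := A'), Finset.sum_filter]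
  apply Finset.sum_le_sum
  intro b hb
  rw [← Finset.mul_sum]
  split_ifs with h
  · calc G b * ∑ a ∈ A', w a b ≤ 1 * ∑ a ∈ A', w a b := mul_le_mul_of_nonneg_right (hG1 b hb) h
      _ = _ := one_mul _
  · push Not at h
    exact mul_nonpos_of_nonneg_of_nonpos (hG0 b hb) h.le

end Pool.Agent.Helper433
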