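import Mathlib

set_option autoImplicit false

namespace Pool.Agent.Helper433

open Finset

/-- The sign of a Boolean. -/
def sgn (b : Bool) : ℝ := if b then 1 else -1

/-- Riesz product. -/
noncomputable def rz {ι : Type*} [Fintype ι] (X : ι → ℝ) (e : ι → Bool) : ℝ :=
  ∏ i, (1 + sgn (e i) * X i)

lemma rz_nonneg {ι : Type*} [Fintype ι] (X : ι → ℝ) (hX : ∀ i, |X i| ≤ 1) (e : ι → Bool) :
    0 ≤ rz X e := by
  apply Finset.prod_nonneg
  intro i _
  have h := abs_le.mp (hX i)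
  unfold sgn
  split_ifs <;> linarith [h.1, h.2]

lemma sum_rz_mul {ι : Type*} [Fintype ι] [DecidableEq ι] (X Y : ι → ℝ) :
    ∑ e : ι → Bool, rz X e * rz Y e = 2 ^ Fintype.card ι * ∏ i, (1 + X i * Y i) := by
  have h1 : ∀ e : ι → Bool, rz X e * rz Y e =
      ∏ i, ((1 + sgn (e i) * X i) * (1 + sgn (e i) * Y i)) := by
    intro e; rw [rz, rz, Finset.prod_mul_distrib]
  simp_rw [h1]
  rw [← Fintype.prod_sum (fun i (b : Bool) => (1 + sgn b * X i) * (1 + sgn b * Y i))]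
  have h2 : ∀ i, ∑ b : Bool, (1 + sgn b * X i) * (1 + sgn b * Y i) = 2 * (1 + X i * Y i) := by
    intro i
    simp only [Fintype.sum_bool, sgn]
    norm_num
    ring
  simp_rw [h2]
  rw [Finset.prod_mul_distrib]
  simp

lemma sum_rz_sq_mul {ι : Type*} [Fintype ι] [DecidableEq ι] (X Y : ι → ℝ) :
    ∑ e : ι → Bool, rz X e ^ 2 * rz Y e =
      2 ^ Fintype.card ι * ∏ i, (1 + (X i ^ 2 + 2 * (X i * Y i))) := by
  have h1 : ∀ e : ι → Bool, rz X e ^ 2 * rz Y e =
      ∏ i, ((1 + sgn (e i) * X i) ^ 2 * (1 + sgn (e i) * Y i)) := by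
    intro e; rw [rz, rz, Finset.prod_mul_distrib, Finset.prod_pow]
  simp_rw [h1]
  rw [← Fintype.prod_sum (fun i (b : Bool) => (1 + sgn b * X i) ^ 2 * (1 + sgn b * Y i))]
  have h2 : ∀ i, ∑ b : Bool, (1 + sgn b * X i) ^ 2 * (1 + sgn b * Y i) =
      2 * (1 + (X i ^ 2 + 2 * (X i * Y i))) := by
    intro i
    simp only [Fintype.sum_bool, sgn]
    norm_num
    ring
  simp_rw [h2]
  rw [Finset.prod_mul_distrib]
  simp

lemma prod_one_add_le_exp {ι : Type*} [Fintype ι] (t : ι → ℝ) (ht : ∀ i, 0 ≤ 1 + t i) :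
    ∏ i, (1 + t i) ≤ Real.exp (∑ i, t i) := by
  rw [Real.exp_sum]
  apply Finset.prod_le_prod (fun i _ => ht i)
  intro i _
  linarith [Real.add_one_le_exp (t i)]

lemma exp_le_one_add (t : ℝ) (ht : |t| ≤ 1 / 2) : Real.exp (t - 2 * t ^ 2) ≤ 1 + t := by
  have h := abs_le.mp ht
  have hpos : 0 < 1 + t := by linarith [h.1]
  have h1 : 1 - t / (1 + t) ≤ Real.exp (-(t / (1 + t))) := Real.one_sub_le_exp_neg _
  have h2 : 1 - t / (1 + t) = (1 + t)⁻¹ := by field_simp; ring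
  rw [h2] at h1
  have h3 : Real.exp (t / (1 + t)) ≤ 1 + t := by
    rw [Real.exp_neg] at h1
    exact (inv_le_inv₀ hpos (Real.exp_pos _)).mp h1
  refine le_trans (Real.exp_le_exp.mpr ?_) h3
  rw [le_div_iff₀ hpos]
  nlinarith [sq_nonneg t, mul_nonneg (sq_nonneg t) (by linarith [h.1] : (0 : ℝ) ≤ 1 + 2 * t)]

lemma exp_le_prod_one_add {ι : Type*} [Fintype ι] (t : ι → ℝ) (ht : ∀ i, |t i| ≤ 1 / 2) :
    Real.exp (∑ i, t i - 2 * ∑ i, t i ^ 2) ≤ ∏ i, (1 + t i) := by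
  have : ∑ i, t i - 2 * ∑ i, t i ^ 2 = ∑ i, (t i - 2 * t i ^ 2) := by
    rw [Finset.sum_sub_distrib, Finset.mul_sum]
  rw [this, Real.exp_sum]
  apply Finset.prod_le_prod (fun i _ => (Real.exp_pos _).le)
  intro i _
  exact exp_le_one_add _ (ht i)

/-- pointwise truncation inequality -/
lemma min_mul_min (f g L : ℝ) (hf : 0 ≤ f) (hg : 0 ≤ g) (hL : 0 < L) :
    f * g - f ^ 2 * g / L - g ^ 2 * f / L ≤ min f L * min g L := by
  rcases le_total f L with h1 | h1 <;> rcases le_total g L with h2 | h2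
  · rw [min_eq_left h1, min_eq_left h2]
    have : 0 ≤ f ^ 2 * g / L := by positivity
    have : 0 ≤ g ^ 2 * f / L := by positivity
    linarith
  · rw [min_eq_left h1, min_eq_right h2]
    have e1 : 0 ≤ f ^ 2 * g / L := by positivity
    have e2 : f * g ≤ g ^ 2 * f / L := by
      rw [le_div_iff₀ hL]
      nlinarith [mul_nonneg hf hg, mul_nonneg (mul_nonneg hf hg) (sub_nonneg.mpr h2)]
    have e3 : 0 ≤ f * L := by positivity
    linarith
  · rw [min_eq_right h1, min_eq_left h2]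
    have e1 : 0 ≤ g ^ 2 * f / L := by positivity
    have e2 : f * g ≤ f ^ 2 * g / L := by
      rw [le_div_iff₀ hL]
      nlinarith [mul_nonneg hf hg, mul_nonneg (mul_nonneg hf hg) (sub_nonneg.mpr h1)]
    have e3 : 0 ≤ L * g := by positivity
    linarith
  · rw [min_eq_right h1, min_eq_right h2]
    have e1 : 0 ≤ g ^ 2 * f / L := by positivity
    have e2 : f * g ≤ f ^ 2 * g / L := by
      rw [le_div_iff₀ hL]
      nlinarith [mul_nonneg hf hg, mul_nonneg (mul_nonneg hf hg) (sub_nonneg.mpr h1)]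
    have e3 : 0 ≤ L * L := by positivity
    linarith

end Pool.Agent.Helper433
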