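import Mathlib
import Pool.Agent.Helper433.Basic
import Pool.Agent.Helper433.Riesz

set_option autoImplicit false

namespace Pool.Agent.Helper433

open Finset

lemma amp_core {α β ι : Type*} [Fintype ι] (A : Finset α) (B : Finset β)
    (X : α → ι → ℝ) (Y : β → ι → ℝ) (N : α → β → ℝ) (s R K η : ℝ)
    (hs : 1 ≤ s)
    (hXY : ∀ a ∈ A, ∀ b ∈ B, ∑ i, X a i * Y b i = s * N a b)
    (hX : ∀ a ∈ A, ∑ i, X a i ^ 2 ≤ R) (hY : ∀ b ∈ B, ∑ i, Y b i ^ 2 ≤ R)
    (hX1 : ∀ a ∈ A, ∀ i, |X a i| ≤ 1 / 2) (hY1 : ∀ b ∈ B, ∀ i, |Y b i| ≤ 1 / 2)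
    (hsq : ∀ a ∈ A, ∀ b ∈ B, ∑ i, (X a i * Y b i) ^ 2 ≤ 1 / 2)
    (hN1 : ∀ a ∈ A, ∀ b ∈ B, 1 ≤ |N a b|) (hNK : ∀ a ∈ A, ∀ b ∈ B, |N a b| ≤ K)
    (hη0 : 0 < η) (hexp : Real.exp (-s) ≤ η / 8)
    (hmaj : (A.card : ℝ) * B.card ≤ 2 * ∑ a ∈ A, ∑ b ∈ B, (if 0 < N a b then (1 : ℝ) else 0)) :
    ∃ A' ⊆ A, ∃ B' ⊆ B, η / 8 * ((A.card : ℝ) * B.card) ≤
      (4 * Real.exp (R + 2 * s * K)) ^ 2 *
        ∑ a ∈ A', ∑ b ∈ B', (η - if N a b < 0 then 1 else 0) := by
  classical
  set L : ℝ := 4 * Real.exp (R + 2 * s * K) with hL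
  have hLpos : 0 < L := by positivity
  set w : α → β → ℝ := fun a b => η - if N a b < 0 then 1 else 0 with hw
  set S : (ι → Bool) → ℝ := fun e =>
    ∑ a ∈ A, ∑ b ∈ B, min (rz (X a) e) L * min (rz (Y b) e) L * w a b with hS
  have hcardpos : (0 : ℝ) < 2 ^ Fintype.card ι := by positivity
  have hXn : ∀ a ∈ A, ∀ e, 0 ≤ rz (X a) e := fun a ha e =>
    rz_nonneg _ (fun i => (hX1 a ha i).trans (by norm_num)) e
  have hYn : ∀ b ∈ B, ∀ e, 0 ≤ rz (Y b) e := fun b hb e =>
    rz_nonneg _ (fun i => (hY1 b hb i).trans (by norm_num)) e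
  have hXYsmall : ∀ a ∈ A, ∀ b ∈ B, ∀ i, |X a i * Y b i| ≤ 1 / 4 := by
    intro a ha b hb i
    rw [abs_mul]
    calc |X a i| * |Y b i| ≤ 1 / 2 * (1 / 2) :=
          mul_le_mul (hX1 a ha i) (hY1 b hb i) (abs_nonneg _) (by norm_num)
      _ = 1 / 4 := by norm_num
  -- pointwise estimate
  have hpoint : ∀ a ∈ A, ∀ b ∈ B,
      2 ^ Fintype.card ι * ((if 0 < N a b then η / 2 else 0) - η / 8 * (if 0 < N a b then 0 else 1)) ≤
        ∑ e : ι → Bool, min (rz (X a) e) L * min (rz (Y b) e) L * w a b := by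
    intro a ha b hb
    rw [← Finset.sum_mul]
    have hN1' := hN1 a ha b hb
    have hNK' := hNK a ha b hb
    have hup : ∏ i, (1 + X a i * Y b i) ≤ Real.exp (s * N a b) := by
      rw [← hXY a ha b hb]
      apply prod_one_add_le_exp
      intro i
      linarith [(abs_le.mp (hXYsmall a ha b hb i)).1]
    by_cases hN : 0 < N a b
    · have hwe : w a b = η := by
        simp only [hw]
        rw [if_neg (by linarith)]
        ring
      rw [hwe, if_pos hN, if_pos hN, mul_zero, sub_zero]
      have hNge : 1 ≤ N a b := by rwa [abs_of_pos hN] at hN1'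
      have hNle : N a b ≤ K := by rwa [abs_of_pos hN] at hNK'
      -- lower bound of sum of truncated products
      have h1 : ∑ e : ι → Bool, (rz (X a) e * rz (Y b) e - rz (X a) e ^ 2 * rz (Y b) e / L -
          rz (Y b) e ^ 2 * rz (X a) e / L) ≤
          ∑ e : ι → Bool, min (rz (X a) e) L * min (rz (Y b) e) L := by
        apply Finset.sum_le_sum
        intro e _
        exact min_mul_min _ _ _ (hXn a ha e) (hYn b hb e) hLpos
      rw [Finset.sum_sub_distrib, Finset.sum_sub_distrib, ← Finset.sum_div, ← Finset.sum_div,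
        sum_rz_mul, sum_rz_sq_mul, sum_rz_sq_mul] at h1
      have hlow : 1 ≤ ∏ i, (1 + X a i * Y b i) := by
        refine le_trans ?_ (exp_le_prod_one_add (fun i => X a i * Y b i)
          (fun i => (hXYsmall a ha b hb i).trans (by norm_num)))
        rw [← Real.exp_zero]
        apply Real.exp_le_exp.mpr
        rw [hXY a ha b hb]
        have := hsq a ha b hb
        nlinarith
      have hb1 : ∏ i, (1 + (X a i ^ 2 + 2 * (X a i * Y b i))) ≤ Real.exp (R + 2 * s * K) := by
        refine (prod_one_add_le_exp _ (fun i => ?_)).trans (Real.exp_le_exp.mpr ?_)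
        · nlinarith [(abs_le.mp (hXYsmall a ha b hb i)).1, sq_nonneg (X a i)]
        · rw [Finset.sum_add_distrib, ← Finset.mul_sum, hXY a ha b hb]
          have := hX a ha
          nlinarith
      have hb2 : ∏ i, (1 + (Y b i ^ 2 + 2 * (Y b i * X a i))) ≤ Real.exp (R + 2 * s * K) := by
        refine (prod_one_add_le_exp _ (fun i => ?_)).trans (Real.exp_le_exp.mpr ?_)
        · nlinarith [(abs_le.mp (hXYsmall a ha b hb i)).1, sq_nonneg (Y b i)]
        · rw [Finset.sum_add_distrib, ← Finset.mul_sum]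
          have e1 : ∑ i, Y b i * X a i = s * N a b := by
            rw [← hXY a ha b hb]
            exact Finset.sum_congr rfl fun i _ => mul_comm _ _
          rw [e1]
          have := hY b hb
          nlinarith
      have hb1' : 2 ^ Fintype.card ι * ((∏ i, (1 + (X a i ^ 2 + 2 * (X a i * Y b i)))) / L) ≤
          2 ^ Fintype.card ι * (1 / 4) := by
        rw [hL]
        apply mul_le_mul_of_nonneg_left _ hcardpos.le
        rw [div_le_iff₀ (by positivity)]
        linarith
      have hb2' : 2 ^ Fintype.card ι * ((∏ i, (1 + (Y b i ^ 2 + 2 * (Y b i * X a i)))) / L) ≤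
          2 ^ Fintype.card ι * (1 / 4) := by
        rw [hL]
        apply mul_le_mul_of_nonneg_left _ hcardpos.le
        rw [div_le_iff₀ (by positivity)]
        linarith
      have h2 : 2 ^ Fintype.card ι * (1 / 2) ≤
          ∑ e : ι → Bool, min (rz (X a) e) L * min (rz (Y b) e) L := by
        refine le_trans ?_ h1
        have h3 : (2 : ℝ) ^ Fintype.card ι * 1 ≤ 2 ^ Fintype.card ι * ∏ i, (1 + X a i * Y b i) :=
          mul_le_mul_of_nonneg_left hlow hcardpos.le
        rw [mul_div_assoc, mul_div_assoc]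
        linarith
      calc (2 : ℝ) ^ Fintype.card ι * (η / 2) = 2 ^ Fintype.card ι * (1 / 2) * η := by ring
        _ ≤ _ := mul_le_mul_of_nonneg_right h2 hη0.le
    · rw [if_neg hN, if_neg hN]
      have hNneg : N a b < 0 := by
        rcases lt_trichotomy (N a b) 0 with h | h | h
        · exact h
        · rw [h] at hN1'; simp at hN1'; linarith
        · exact absurd h hN
      have hNle : N a b ≤ -1 := by
        rw [abs_of_neg hNneg] at hN1'; linarith
      have hwe : w a b = η - 1 := by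
        simp only [hw]
        rw [if_pos hNneg]
      rw [hwe]
      have h1 : ∑ e : ι → Bool, min (rz (X a) e) L * min (rz (Y b) e) L ≤
          2 ^ Fintype.card ι * (η / 8) := by
        calc ∑ e : ι → Bool, min (rz (X a) e) L * min (rz (Y b) e) L ≤
            ∑ e : ι → Bool, rz (X a) e * rz (Y b) e := by
              apply Finset.sum_le_sum
              intro e _
              exact mul_le_mul (min_le_left _ _) (min_le_left _ _)
                (le_min (hYn b hb e) hLpos.le) (hXn a ha e)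
          _ = 2 ^ Fintype.card ι * ∏ i, (1 + X a i * Y b i) := sum_rz_mul _ _
          _ ≤ 2 ^ Fintype.card ι * (η / 8) := by
              apply mul_le_mul_of_nonneg_left _ hcardpos.le
              refine hup.trans (le_trans (Real.exp_le_exp.mpr ?_) hexp)
              nlinarith
      have h0 : 0 ≤ ∑ e : ι → Bool, min (rz (X a) e) L * min (rz (Y b) e) L :=
        Finset.sum_nonneg fun e _ => mul_nonneg (le_min (hXn a ha e) hLpos.le)
          (le_min (hYn b hb e) hLpos.le)
      nlinarith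
  -- average
  have hsum : 2 ^ Fintype.card ι * (η / 8 * ((A.card : ℝ) * B.card)) ≤ ∑ e : ι → Bool, S e := by
    have h1 : ∑ e : ι → Bool, S e =
        ∑ a ∈ A, ∑ b ∈ B, ∑ e : ι → Bool, min (rz (X a) e) L * min (rz (Y b) e) L * w a b := by
      simp only [hS]
      rw [Finset.sum_comm]
      apply Finset.sum_congr rfl
      intro a _
      rw [Finset.sum_comm]
    rw [h1]
    have h2 : ∑ a ∈ A, ∑ b ∈ B, 2 ^ Fintype.card ι *
        ((if 0 < N a b then η / 2 else 0) - η / 8 * (if 0 < N a b then 0 else 1)) ≤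
        ∑ a ∈ A, ∑ b ∈ B, ∑ e : ι → Bool, min (rz (X a) e) L * min (rz (Y b) e) L * w a b :=
      Finset.sum_le_sum fun a ha => Finset.sum_le_sum fun b hb => hpoint a ha b hb
    refine le_trans ?_ h2
    simp_rw [← Finset.mul_sum]
    apply mul_le_mul_of_nonneg_left _ hcardpos.le
    have h3 : ∀ a b, ((if 0 < N a b then η / 2 else 0) - η / 8 * (if 0 < N a b then 0 else 1) : ℝ) =
        (η / 2 + η / 8) * (if 0 < N a b then 1 else 0) - η / 8 := by
      intro a b
      split_ifs <;> ring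
    simp_rw [h3, Finset.sum_sub_distrib, ← Finset.mul_sum, Finset.sum_const, nsmul_eq_mul]
    set P := ∑ a ∈ A, ∑ b ∈ B, (if 0 < N a b then (1 : ℝ) else 0) with hP
    have h4 : (η / 2 + η / 8) * ((A.card : ℝ) * B.card) ≤ (η / 2 + η / 8) * (2 * P) :=
      mul_le_mul_of_nonneg_left hmaj (by positivity)
    have h5 : (0 : ℝ) ≤ (A.card : ℝ) * B.card := by positivity
    nlinarith
  obtain ⟨e, -, he⟩ : ∃ e ∈ (Finset.univ : Finset (ι → Bool)),
      η / 8 * ((A.card : ℝ) * B.card) ≤ S e := by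
    by_contra hcon
    push Not at hcon
    have h1 : ∑ e : ι → Bool, S e < ∑ e : ι → Bool, η / 8 * ((A.card : ℝ) * B.card) :=
      Finset.sum_lt_sum_of_nonempty Finset.univ_nonempty hcon
    rw [Finset.sum_const, Finset.card_univ, nsmul_eq_mul] at h1
    have h2 : ((Fintype.card (ι → Bool) : ℕ) : ℝ) = 2 ^ Fintype.card ι := by
      simp
    rw [h2] at h1
    linarith
  obtain ⟨A', hA', B', hB', hr⟩ := round_sets A B w (fun a => min (rz (X a) e) L / L)
    (fun b => min (rz (Y b) e) L / L)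
    (fun a ha => div_nonneg (le_min (hXn a ha e) hLpos.le) hLpos.le)
    (fun a _ => (div_le_one hLpos).mpr (min_le_right _ _))
    (fun b hb => div_nonneg (le_min (hYn b hb e) hLpos.le) hLpos.le)
    (fun b _ => (div_le_one hLpos).mpr (min_le_right _ _))
  refine ⟨A', hA', B', hB', he.trans ?_⟩
  have h6 : S e = L ^ 2 * ∑ a ∈ A, ∑ b ∈ B,
      min (rz (X a) e) L / L * (min (rz (Y b) e) L / L) * w a b := by
    simp only [hS]
    rw [Finset.mul_sum]
    apply Finset.sum_congr rfl
    intro a _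
    rw [Finset.mul_sum]
    apply Finset.sum_congr rfl
    intro b _
    field_simp
  rw [h6]
  exact mul_le_mul_of_nonneg_left hr (by positivity)

end Pool.Agent.Helper433
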