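import Mathlib
import Pool.Agent.Helper433.Amp

set_option autoImplicit false

namespace Pool.Agent.Helper433

open Finset

/-- Orthonormal factorisation of a low rank matrix. -/
lemma onb {α β : Type*} (B : Finset β) (N : α → β → ℝ) (r : ℕ) (hRK : RK r N) :
    ∃ k ≤ r, ∃ (u : α → Fin k → ℝ) (v : β → Fin k → ℝ),
      (∀ a, ∀ b ∈ B, N a b = ∑ i, u a i * v b i) ∧
      (∀ a, ∑ i, u a i ^ 2 = ∑ b ∈ B, N a b ^ 2) ∧
      (∑ b ∈ B, ∑ i, v b i ^ 2 = k) := by
  classical
  obtain ⟨c, φ, h⟩ := hRK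
  let Φ : Fin r → EuclideanSpace ℝ B := fun i => WithLp.toLp 2 (fun b : B => φ i b)
  let V : Submodule ℝ (EuclideanSpace ℝ B) := Submodule.span ℝ (Set.range Φ)
  let e := stdOrthonormalBasis ℝ V
  have hk : Module.finrank ℝ V ≤ r := by
    have := finrank_range_le_card (R := ℝ) Φ
    simpa [Set.finrank] using this
  let row : α → V := fun a => ⟨∑ i, c a i • Φ i, Submodule.sum_mem _ fun i _ =>
    Submodule.smul_mem _ _ (Submodule.subset_span ⟨i, rfl⟩)⟩
  have hrow : ∀ a, ∀ b : B, (row a : EuclideanSpace ℝ B) b = N a b := by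
    intro a b
    simp only [row, h a b, Φ, WithLp.ofLp_sum, Finset.sum_apply, PiLp.smul_apply, smul_eq_mul]
  refine ⟨Module.finrank ℝ V, hk, fun a i => inner ℝ (e i) (row a),
    fun b i => if hb : b ∈ B then ((e i : V) : EuclideanSpace ℝ B) ⟨b, hb⟩ else 0, ?_, ?_, ?_⟩
  · intro a b hb
    have h1 := e.sum_repr' (row a)
    have h2 : ((row a : V) : EuclideanSpace ℝ B) = ∑ i, (inner ℝ (e i) (row a)) • ((e i : V) : EuclideanSpace ℝ B) := by
      conv_lhs => rw [← h1]
      simp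
    have h3 := congrArg (fun f : EuclideanSpace ℝ B => f ⟨b, hb⟩) h2
    simp only at h3
    rw [hrow a ⟨b, hb⟩] at h3
    rw [h3]
    simp [hb, WithLp.ofLp_sum, Finset.sum_apply]
  · intro a
    have h1 := e.sum_sq_norm_inner_right (row a)
    simp only [Real.norm_eq_abs, sq_abs] at h1
    rw [h1]
    have h2 : ‖row a‖ = ‖((row a : V) : EuclideanSpace ℝ B)‖ := rfl
    rw [h2, EuclideanSpace.norm_sq_eq]
    rw [← Finset.sum_coe_sort B]
    apply Finset.sum_congr rfl
    intro b _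
    rw [hrow a b, Real.norm_eq_abs, sq_abs]
  · rw [Finset.sum_comm]
    have h1 : ∀ i, ∑ b ∈ B, (if hb : b ∈ B then ((e i : V) : EuclideanSpace ℝ B) ⟨b, hb⟩ else 0) ^ 2 = 1 := by
      intro i
      have h2 : ‖((e i : V) : EuclideanSpace ℝ B)‖ = 1 := by
        have := e.orthonormal.1 i
        exact this
      have h3 : ‖((e i : V) : EuclideanSpace ℝ B)‖ ^ 2 = 1 := by rw [h2]; norm_num
      rw [EuclideanSpace.norm_sq_eq] at h3
      rw [← Finset.sum_coe_sort B, ← h3]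
      apply Finset.sum_congr rfl
      intro b _
      simp
    rw [Finset.sum_congr rfl (fun i _ => h1 i)]
    simp

/-- Balanced vectors with tiny coordinates. -/
lemma vectors {α β : Type*} (A : Finset α) (B : Finset β) (hB : B.Nonempty)
    (N : α → β → ℝ) (r : ℕ) (hr : 1 ≤ r) (hRK : RK r N) (K : ℝ) (hK : 1 ≤ K)
    (hNK : ∀ a ∈ A, ∀ b ∈ B, |N a b| ≤ K) (s : ℝ) (hs : 1 ≤ s) :
    ∃ B0 ⊆ B, (B.card : ℝ) ≤ 2 * B0.card ∧ ∃ (k m : ℕ) (X : α → Fin k × Fin m → ℝ)
      (Y : β → Fin k × Fin m → ℝ),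
      (∀ a ∈ A, ∀ b ∈ B0, ∑ i, X a i * Y b i = s * N a b) ∧
      (∀ a ∈ A, ∑ i, X a i ^ 2 ≤ s * K * √(2 * r)) ∧
      (∀ b ∈ B0, ∑ i, Y b i ^ 2 ≤ s * K * √(2 * r)) ∧
      (∀ a ∈ A, ∀ i, |X a i| ≤ 1 / 2) ∧ (∀ b ∈ B0, ∀ i, |Y b i| ≤ 1 / 2) ∧
      (∀ a ∈ A, ∀ b ∈ B0, ∑ i, (X a i * Y b i) ^ 2 ≤ 1 / 2) := by
  classical
  obtain ⟨k, hkr, u, v, h1, h2, h3⟩ := onb B N r hRK
  set n : ℝ := (B.card : ℝ) with hn
  have hnpos : 0 < n := by rw [hn]; exact_mod_cast hB.card_pos
  have hr' : (1 : ℝ) ≤ r := by exact_mod_cast hr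
  set B0 : Finset β := B.filter (fun b => ∑ i, v b i ^ 2 ≤ 2 * r / n) with hB0
  have hB0card : n ≤ 2 * B0.card := by
    by_contra hcon
    push Not at hcon
    have hpart : (B0.card : ℝ) + ((B.filter (fun b => ¬ ∑ i, v b i ^ 2 ≤ 2 * r / n)).card : ℝ) = n := by
      have h0 := Finset.card_filter_add_card_filter_not (s := B) (fun b => ∑ i, v b i ^ 2 ≤ 2 * r / n)
      rw [← hB0] at h0
      have h0' : (B0.card : ℝ) + ((B.filter (fun b => ¬ ∑ i, v b i ^ 2 ≤ 2 * r / n)).card : ℝ) =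
        (B.card : ℝ) := by
        rw [← Nat.cast_add, h0]
      exact h0'
    set B1 := B.filter (fun b => ¬ ∑ i, v b i ^ 2 ≤ 2 * r / n) with hB1
    have hB1card : n / 2 < B1.card := by linarith
    have hsum : (B1.card : ℝ) * (2 * r / n) ≤ ∑ b ∈ B, ∑ i, v b i ^ 2 := by
      calc (B1.card : ℝ) * (2 * r / n) = ∑ b ∈ B1, (2 * r / n) := by
            rw [Finset.sum_const, nsmul_eq_mul]
        _ ≤ ∑ b ∈ B1, ∑ i, v b i ^ 2 := by
            apply Finset.sum_le_sum
            intro b hb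
            rw [hB1, Finset.mem_filter] at hb
            exact (not_le.mp hb.2).le
        _ ≤ ∑ b ∈ B, ∑ i, v b i ^ 2 :=
            Finset.sum_le_sum_of_subset_of_nonneg (Finset.filter_subset _ _)
              (fun b _ _ => Finset.sum_nonneg fun i _ => sq_nonneg _)
    rw [h3] at hsum
    have hk : (k : ℝ) ≤ r := by exact_mod_cast hkr
    have h4 : n / 2 * (2 * r / n) < B1.card * (2 * r / n) :=
      mul_lt_mul_of_pos_right hB1card (by positivity)
    have h5 : n / 2 * (2 * r / n) = r := by field_simp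
    linarith
  set q : ℝ := √(2 * r) with hq
  have hqpos : 0 < q := Real.sqrt_pos.mpr (by positivity)
  have hqsq : q ^ 2 = 2 * r := Real.sq_sqrt (by positivity)
  set R : ℝ := s * K * q with hR
  have hRpos : 0 < R := by positivity
  obtain ⟨m0, hm0⟩ := exists_nat_gt (4 * R + 2 * R ^ 2)
  set m : ℕ := m0 with hm
  have hmR : 4 * R + 2 * R ^ 2 < m := hm0
  have hmpos : (0 : ℝ) < m := lt_trans (by positivity) hmR
  set p1 : ℝ := √(s * q / (K * n)) with hp1
  set p2 : ℝ := √(s * K * n / q) with hp2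
  have hp1sq : p1 ^ 2 = s * q / (K * n) := Real.sq_sqrt (by positivity)
  have hp2sq : p2 ^ 2 = s * K * n / q := Real.sq_sqrt (by positivity)
  have hp12 : p1 * p2 = s := by
    rw [hp1, hp2, ← Real.sqrt_mul (by positivity)]
    have : s * q / (K * n) * (s * K * n / q) = s ^ 2 := by field_simp
    rw [this, Real.sqrt_sq (by positivity)]
  set sm : ℝ := √(m : ℝ) with hsm
  have hsmpos : 0 < sm := Real.sqrt_pos.mpr hmpos
  have hsmsq : sm ^ 2 = m := Real.sq_sqrt hmpos.le
  set X : α → Fin k × Fin m → ℝ := fun a i => p1 * u a i.1 / sm with hX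
  set Y : β → Fin k × Fin m → ℝ := fun b i => p2 * v b i.1 / sm with hY
  have hsumX : ∀ a, ∑ i, X a i ^ 2 = p1 ^ 2 * ∑ i, u a i ^ 2 := by
    intro a
    rw [Fintype.sum_prod_type, Finset.mul_sum]
    apply Finset.sum_congr rfl
    intro i _
    simp only [hX, Finset.sum_const, Finset.card_univ, Fintype.card_fin, nsmul_eq_mul]
    rw [div_pow, hsmsq]
    field_simp
  have hsumY : ∀ b, ∑ i, Y b i ^ 2 = p2 ^ 2 * ∑ i, v b i ^ 2 := by
    intro b
    rw [Fintype.sum_prod_type, Finset.mul_sum]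
    apply Finset.sum_congr rfl
    intro i _
    simp only [hY, Finset.sum_const, Finset.card_univ, Fintype.card_fin, nsmul_eq_mul]
    rw [div_pow, hsmsq]
    field_simp
  have hXR : ∀ a ∈ A, ∑ i, X a i ^ 2 ≤ R := by
    intro a ha
    rw [hsumX, h2, hp1sq]
    have h4 : ∑ b ∈ B, N a b ^ 2 ≤ K ^ 2 * n := by
      calc ∑ b ∈ B, N a b ^ 2 ≤ ∑ b ∈ B, K ^ 2 := by
            apply Finset.sum_le_sum
            intro b hb
            exact sq_le_sq' (by linarith [(abs_le.mp (hNK a ha b hb)).1]) (abs_le.mp (hNK a ha b hb)).2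
        _ = K ^ 2 * n := by rw [Finset.sum_const, nsmul_eq_mul, hn]; ring
    calc s * q / (K * n) * ∑ b ∈ B, N a b ^ 2 ≤ s * q / (K * n) * (K ^ 2 * n) :=
          mul_le_mul_of_nonneg_left h4 (by positivity)
      _ = R := by rw [hR]; field_simp
  have hYR : ∀ b ∈ B0, ∑ i, Y b i ^ 2 ≤ R := by
    intro b hb
    rw [hB0, Finset.mem_filter] at hb
    rw [hsumY, hp2sq]
    calc s * K * n / q * ∑ i, v b i ^ 2 ≤ s * K * n / q * (2 * r / n) :=
          mul_le_mul_of_nonneg_left hb.2 (by positivity)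
      _ = R := by rw [hR, ← hqsq]; field_simp
  -- coordinates
  have hXc : ∀ a ∈ A, ∀ i, X a i ^ 2 ≤ R / m := by
    intro a ha i
    have h4 : (p1 * u a i.1) ^ 2 ≤ R := by
      refine le_trans ?_ (hXR a ha)
      rw [hsumX, mul_pow, Finset.mul_sum]
      exact Finset.single_le_sum (f := fun i => p1 ^ 2 * u a i ^ 2)
        (fun i _ => by positivity) (Finset.mem_univ i.1)
    simp only [hX]
    rw [div_pow, hsmsq]
    exact div_le_div_of_nonneg_right h4 hmpos.le
  have hYc : ∀ b ∈ B0, ∀ i, Y b i ^ 2 ≤ R / m := by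
    intro b hb i
    have h4 : (p2 * v b i.1) ^ 2 ≤ R := by
      refine le_trans ?_ (hYR b hb)
      rw [hsumY, mul_pow, Finset.mul_sum]
      exact Finset.single_le_sum (f := fun i => p2 ^ 2 * v b i ^ 2)
        (fun i _ => by positivity) (Finset.mem_univ i.1)
    simp only [hY]
    rw [div_pow, hsmsq]
    exact div_le_div_of_nonneg_right h4 hmpos.le
  have hRm : R / m ≤ 1 / 4 := by
    rw [div_le_iff₀ hmpos]
    nlinarith [sq_nonneg R]
  have hR2m : R ^ 2 / m ≤ 1 / 2 := by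
    rw [div_le_iff₀ hmpos]
    nlinarith
  refine ⟨B0, Finset.filter_subset _ _, hB0card, k, m, X, Y, ?_, hXR, hYR, ?_, ?_, ?_⟩
  · intro a ha b hb
    have hb' : b ∈ B := (Finset.mem_filter.mp hb).1
    rw [h1 a b hb', Fintype.sum_prod_type, Finset.mul_sum]
    apply Finset.sum_congr rfl
    intro i _
    simp only [hX, hY, Finset.sum_const, Finset.card_univ, Fintype.card_fin, nsmul_eq_mul]
    have : p1 * u a i / sm * (p2 * v b i / sm) = (p1 * p2) * (u a i * v b i) / sm ^ 2 := by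
      field_simp
    rw [this, hp12, hsmsq]
    field_simp
  · intro a ha i
    apply abs_le_of_sq_le_sq _ (by norm_num)
    calc X a i ^ 2 ≤ R / m := hXc a ha i
      _ ≤ 1 / 4 := hRm
      _ = (1 / 2) ^ 2 := by norm_num
  · intro b hb i
    apply abs_le_of_sq_le_sq _ (by norm_num)
    calc Y b i ^ 2 ≤ R / m := hYc b hb i
      _ ≤ 1 / 4 := hRm
      _ = (1 / 2) ^ 2 := by norm_num
  · intro a ha b hb
    calc ∑ i, (X a i * Y b i) ^ 2 ≤ ∑ i, R / m * Y b i ^ 2 := by
          apply Finset.sum_le_sum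
          intro i _
          rw [mul_pow]
          exact mul_le_mul_of_nonneg_right (hXc a ha i) (sq_nonneg _)
      _ = R / m * ∑ i, Y b i ^ 2 := by rw [Finset.mul_sum]
      _ ≤ R / m * R := mul_le_mul_of_nonneg_left (hYR b hb) (by positivity)
      _ = R ^ 2 / m := by ring
      _ ≤ 1 / 2 := hR2m

/-- The cost of one sign amplification step. -/
noncomputable def ampCost (r : ℕ) (K s : ℝ) : ℝ :=
  16 * (4 * Real.exp (s * K * √(2 * r) + 2 * s * K)) ^ 2

lemma ampCost_pos (r : ℕ) (K s : ℝ) : 0 < ampCost r K s := by unfold ampCost; positivity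

/-- Sign amplification for low rank matrices with bounded ratio of entries. -/
lemma amp {α β : Type*} (A : Finset α) (B : Finset β) (hA : A.Nonempty) (hB : B.Nonempty)
    (N : α → β → ℝ) (r : ℕ) (hr : 1 ≤ r) (hRK : RK r N) (K : ℝ) (hK : 1 ≤ K)
    (hN1 : ∀ a ∈ A, ∀ b ∈ B, 1 ≤ |N a b|) (hNK : ∀ a ∈ A, ∀ b ∈ B, |N a b| ≤ K)
    (η : ℝ) (hη0 : 0 < η) (s : ℝ) (hs : 1 ≤ s) (hexp : Real.exp (-s) ≤ η / 8) :
    ∃ A' ⊆ A, ∃ B' ⊆ B, A'.Nonempty ∧ B'.Nonempty ∧
      (A.card : ℝ) * B.card ≤ ampCost r K s * (A'.card * B'.card) ∧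
      ((∑ a ∈ A', ∑ b ∈ B', (if N a b < 0 then (1 : ℝ) else 0) ≤ η * (A'.card * B'.card)) ∨
        (∑ a ∈ A', ∑ b ∈ B', (if 0 < N a b then (1 : ℝ) else 0) ≤ η * (A'.card * B'.card))) := by
  classical
  obtain ⟨B0, hB0, hB0c, k, m, X, Y, h1, h2, h3, h4, h5, h6⟩ :=
    vectors A B hB N r hr hRK K hK hNK s hs
  set L : ℝ := 4 * Real.exp (s * K * √(2 * r) + 2 * s * K) with hL
  have hLpos : 0 < L := by positivity
  have hApos : (0 : ℝ) < A.card := by exact_mod_cast hA.card_pos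
  have hBpos : (0 : ℝ) < B.card := by exact_mod_cast hB.card_pos
  have hB0pos : (0 : ℝ) < B0.card := by linarith
  -- conclusion from the output of `amp_core`
  have fin : ∀ (N' : α → β → ℝ) (A' : Finset α) (B' : Finset β),
      η / 8 * ((A.card : ℝ) * B0.card) ≤
      L ^ 2 * ∑ a ∈ A', ∑ b ∈ B', (η - if N' a b < 0 then 1 else 0) →
      A'.Nonempty ∧ B'.Nonempty ∧ (A.card : ℝ) * B.card ≤ ampCost r K s * (A'.card * B'.card) ∧
      (∑ a ∈ A', ∑ b ∈ B', (if N' a b < 0 then (1 : ℝ) else 0) ≤ η * (A'.card * B'.card)) := by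
    intro N' A' B' h
    have e1 : ∑ a ∈ A', ∑ b ∈ B', (η - if N' a b < 0 then (1 : ℝ) else 0) =
        η * (A'.card * B'.card) - ∑ a ∈ A', ∑ b ∈ B', (if N' a b < 0 then (1 : ℝ) else 0) := by
      simp_rw [Finset.sum_sub_distrib, Finset.sum_const, nsmul_eq_mul]
      ring
    rw [e1] at h
    have hneg : 0 ≤ ∑ a ∈ A', ∑ b ∈ B', (if N' a b < 0 then (1 : ℝ) else 0) :=
      Finset.sum_nonneg fun a _ => Finset.sum_nonneg fun b _ => by split_ifs <;> norm_num
    have hpos : 0 < η / 8 * ((A.card : ℝ) * B0.card) := by positivity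
    have hd : 0 < η * ((A'.card : ℝ) * B'.card) -
        ∑ a ∈ A', ∑ b ∈ B', (if N' a b < 0 then (1 : ℝ) else 0) := by
      by_contra hc
      push Not at hc
      have : L ^ 2 * (η * ((A'.card : ℝ) * B'.card) -
        ∑ a ∈ A', ∑ b ∈ B', (if N' a b < 0 then (1 : ℝ) else 0)) ≤ 0 :=
        mul_nonpos_of_nonneg_of_nonpos (by positivity) hc
      linarith
    have hcard : 0 < (A'.card : ℝ) * B'.card := by
      by_contra hc
      push Not at hc
      have : η * ((A'.card : ℝ) * B'.card) ≤ 0 := mul_nonpos_of_nonneg_of_nonpos hη0.le hc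
      linarith
    have hA'0 : A'.card ≠ 0 := by
      intro h0; rw [h0] at hcard; simp at hcard
    have hB'0 : B'.card ≠ 0 := by
      intro h0; rw [h0] at hcard; simp at hcard
    refine ⟨Finset.card_ne_zero.mp hA'0, Finset.card_ne_zero.mp hB'0, ?_, by linarith⟩
    have h7 : η / 8 * ((A.card : ℝ) * B0.card) ≤ L ^ 2 * (η * ((A'.card : ℝ) * B'.card)) := by
      refine h.trans (mul_le_mul_of_nonneg_left (by linarith) (by positivity))
    have h8 : (A.card : ℝ) * B0.card ≤ 8 * L ^ 2 * ((A'.card : ℝ) * B'.card) := by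
      have : η * ((A.card : ℝ) * B0.card) ≤ η * (8 * L ^ 2 * ((A'.card : ℝ) * B'.card)) := by
        linarith
      exact le_of_mul_le_mul_left this hη0
    have h9 : (A.card : ℝ) * B.card ≤ A.card * (2 * B0.card) :=
      mul_le_mul_of_nonneg_left hB0c hApos.le
    unfold ampCost
    rw [← hL]
    nlinarith
  -- majority
  set Pos := ∑ a ∈ A, ∑ b ∈ B0, (if 0 < N a b then (1 : ℝ) else 0) with hPos
  set Neg := ∑ a ∈ A, ∑ b ∈ B0, (if 0 < - N a b then (1 : ℝ) else 0) with hNeg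
  have hsum : Pos + Neg = (A.card : ℝ) * B0.card := by
    rw [hPos, hNeg, ← Finset.sum_add_distrib]
    simp_rw [← Finset.sum_add_distrib]
    have : ∀ a ∈ A, ∀ b ∈ B0, ((if 0 < N a b then (1 : ℝ) else 0) + (if 0 < - N a b then 1 else 0)) = 1 := by
      intro a ha b hb
      have := hN1 a ha b (hB0 hb)
      rcases lt_trichotomy (N a b) 0 with h | h | h
      · rw [if_neg (by linarith), if_pos (by linarith)]; norm_num
      · rw [h] at this; simp at this; linarith
      · rw [if_pos h, if_neg (by linarith)]; norm_num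
    rw [Finset.sum_congr rfl (fun a ha => Finset.sum_congr rfl (fun b hb => this a ha b hb))]
    simp
  by_cases hmaj : (A.card : ℝ) * B0.card ≤ 2 * Pos
  · obtain ⟨A', hA', B', hB', hc⟩ := amp_core A B0 X Y N s (s * K * √(2 * r)) K η hs h1 h2 h3 h4 h5 h6
      (fun a ha b hb => hN1 a ha b (hB0 hb)) (fun a ha b hb => hNK a ha b (hB0 hb)) hη0 hexp hmaj
    obtain ⟨f1, f2, f3, f4⟩ := fin N A' B' hc
    exact ⟨A', hA', B', hB'.trans hB0, f1, f2, f3, Or.inl f4⟩
  · have hmaj' : (A.card : ℝ) * B0.card ≤ 2 * Neg := by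
      push Not at hmaj
      linarith
    obtain ⟨A', hA', B', hB', hc⟩ := amp_core A B0 (fun a i => - X a i) Y (fun a b => - N a b) s
      (s * K * √(2 * r)) K η hs
      (fun a ha b hb => by
        have := h1 a ha b hb
        simp only [neg_mul, Finset.sum_neg_distrib, this]
        ring)
      (fun a ha => by simpa using h2 a ha) h3 (fun a ha i => by simpa using h4 a ha i) h5
      (fun a ha b hb => by simpa using h6 a ha b hb)
      (fun a ha b hb => by simpa using hN1 a ha b (hB0 hb))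
      (fun a ha b hb => by simpa using hNK a ha b (hB0 hb)) hη0 hexp hmaj'
    obtain ⟨f1, f2, f3, f4⟩ := fin (fun a b => - N a b) A' B' hc
    refine ⟨A', hA', B', hB'.trans hB0, f1, f2, f3, Or.inr ?_⟩
    simpa using f4

end Pool.Agent.Helper433
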