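import Mathlib
import Pool.Agent.Helper433.Amp2

set_option autoImplicit false

namespace Pool.Agent.Helper433

open Finset

/-- majority of a two-part split -/
lemma majority {α : Type*} (A : Finset α) (p : α → Prop) [DecidablePred p] :
    A.card ≤ 2 * (A.filter p).card ∨ A.card ≤ 2 * (A.filter (fun a => ¬ p a)).card := by
  have := Finset.card_filter_add_card_filter_not (s := A) p
  omega

/-- Normalising a nonnegative separable function. -/
lemma norm_sep {α β : Type*} (A : Finset α) (B : Finset β) (hA : A.Nonempty) (hB : B.Nonempty)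
    (f : α → ℝ) (g : β → ℝ) (hW : ∀ a ∈ A, ∀ b ∈ B, 0 ≤ f a + g b) :
    ∃ A' ⊆ A, ∃ B' ⊆ B, A.card ≤ 4 * A'.card ∧ B.card ≤ 4 * B'.card ∧
      ((∀ a ∈ A', ∀ b ∈ B', f a + g b = 0) ∨
        ∃ (x : α → ℝ) (y : β → ℝ), (∀ a ∈ A', 0 < x a) ∧ (∀ b ∈ B', 0 < y b) ∧
          ∀ a ∈ A', ∀ b ∈ B', x a * y b ≤ f a + g b ∧ f a + g b ≤ 2 * (x a * y b)) := by
  classical
  obtain ⟨a0, ha0, hmin⟩ := Finset.exists_min_image A f hA
  set m := f a0 with hm
  have hu : ∀ a ∈ A, 0 ≤ f a - m := fun a ha => by linarith [hmin a ha]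
  have hv : ∀ b ∈ B, 0 ≤ g b + m := fun b hb => by linarith [hW a0 ha0 b hb]
  obtain ⟨A1, hA1, B1, hB1, hcA, hcB, h⟩ := cmp A B hA hB (fun a => f a - m) (fun b => g b + m)
  rcases h with h | h
  · -- u ≤ v
    rcases majority B1 (fun b => g b + m = 0) with hmaj | hmaj
    · refine ⟨A1, hA1, B1.filter (fun b => g b + m = 0), (Finset.filter_subset _ _).trans hB1,
        by omega, by omega, Or.inl ?_⟩
      intro a ha b hb
      rw [Finset.mem_filter] at hb
      have h1 := h a ha b hb.1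
      have h2 := hu a (hA1 ha)
      linarith [hb.2]
    · refine ⟨A1, hA1, B1.filter (fun b => ¬ (g b + m = 0)), (Finset.filter_subset _ _).trans hB1,
        by omega, by omega, Or.inr ⟨fun _ => 1, fun b => g b + m, fun _ _ => one_pos, ?_, ?_⟩⟩
      · intro b hb
        rw [Finset.mem_filter] at hb
        exact lt_of_le_of_ne (hv b (hB1 hb.1)) (Ne.symm hb.2)
      · intro a ha b hb
        rw [Finset.mem_filter] at hb
        have h1 := h a ha b hb.1
        have h2 := hu a (hA1 ha)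
        constructor <;> linarith
  · rcases majority A1 (fun a => f a - m = 0) with hmaj | hmaj
    · refine ⟨A1.filter (fun a => f a - m = 0), (Finset.filter_subset _ _).trans hA1, B1, hB1,
        by omega, by omega, Or.inl ?_⟩
      intro a ha b hb
      rw [Finset.mem_filter] at ha
      have h1 := h a ha.1 b hb
      have h2 := hv b (hB1 hb)
      linarith [ha.2]
    · refine ⟨A1.filter (fun a => ¬ (f a - m = 0)), (Finset.filter_subset _ _).trans hA1, B1, hB1,
        by omega, by omega, Or.inr ⟨fun a => f a - m, fun _ => 1, ?_, fun _ _ => one_pos, ?_⟩⟩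
      · intro a ha
        rw [Finset.mem_filter] at ha
        exact lt_of_le_of_ne (hu a (hA1 ha.1)) (Ne.symm ha.2)
      · intro a ha b hb
        rw [Finset.mem_filter] at ha
        have h1 := h a ha.1 b hb
        have h2 := hv b (hB1 hb)
        constructor <;> linarith

/-- Markov: half of the rows have at most twice the average. -/
lemma half_rows {α β : Type*} (A : Finset α) (B : Finset β)
    (E : α → β → ℝ) (hE : ∀ a ∈ A, ∀ b ∈ B, 0 ≤ E a b) (η : ℝ) (hη : 0 < η) (hB : B.Nonempty)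
    (h : ∑ a ∈ A, ∑ b ∈ B, E a b ≤ η * (A.card * B.card)) :
    ∃ A' ⊆ A, (A.card : ℝ) ≤ 2 * A'.card ∧ ∀ a ∈ A', ∑ b ∈ B, E a b ≤ 2 * η * B.card := by
  classical
  refine ⟨A.filter (fun a => ∑ b ∈ B, E a b ≤ 2 * η * B.card), Finset.filter_subset _ _, ?_,
    fun a ha => (Finset.mem_filter.mp ha).2⟩
  by_contra hcon
  push Not at hcon
  have h0 := Finset.card_filter_add_card_filter_not (s := A)
    (fun a => ∑ b ∈ B, E a b ≤ 2 * η * B.card)
  set A1 := A.filter (fun a => ∑ b ∈ B, E a b ≤ 2 * η * B.card) with hA1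
  set A2 := A.filter (fun a => ¬ ∑ b ∈ B, E a b ≤ 2 * η * B.card) with hA2
  have h0' : (A1.card : ℝ) + A2.card = A.card := by rw [← Nat.cast_add, h0]
  have h2 : (A.card : ℝ) / 2 < A2.card := by linarith
  have hBpos : (0 : ℝ) < B.card := by exact_mod_cast hB.card_pos
  have h3 : (A2.card : ℝ) * (2 * η * B.card) ≤ ∑ a ∈ A, ∑ b ∈ B, E a b := by
    calc (A2.card : ℝ) * (2 * η * B.card) = ∑ a ∈ A2, 2 * η * B.card := by
          rw [Finset.sum_const, nsmul_eq_mul]
      _ ≤ ∑ a ∈ A2, ∑ b ∈ B, E a b := by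
          apply Finset.sum_le_sum
          intro a ha
          rw [hA2, Finset.mem_filter] at ha
          exact (not_le.mp ha.2).le
      _ ≤ _ := Finset.sum_le_sum_of_subset_of_nonneg (Finset.filter_subset _ _)
              (fun a ha _ => Finset.sum_nonneg fun b hb => hE a ha b hb)
  have h4 : (A.card : ℝ) / 2 * (2 * η * B.card) < A2.card * (2 * η * B.card) :=
    mul_lt_mul_of_pos_right h2 (by positivity)
  nlinarith

/-- Exactness: if only few entries lie outside the list `H`, then all entries lie in the list on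
a large rectangle. -/
lemma exact_list {α β ι : Type*} (A : Finset α) (B : Finset β) (hA : A.Nonempty) (hB : B.Nonempty)
    (M : α → β → ℝ) (r : ℕ) (hr : RK r M) (H : Finset ι) (ρ : ι → α → ℝ) (σ : ι → β → ℝ)
    (Q : ℕ) (hQ : H.card ≤ Q) (E : α → β → ℝ) (hE : ∀ a ∈ A, ∀ b ∈ B, 0 ≤ E a b)
    (hE1 : ∀ a ∈ A, ∀ b ∈ B, (∀ k ∈ H, M a b ≠ ρ k a + σ k b) → 1 ≤ E a b)
    (η : ℝ) (hη : 0 < η) (hηQ : 4 * η * (r + 2 : ℝ) ^ Q ≤ 1)
    (h : ∑ a ∈ A, ∑ b ∈ B, E a b ≤ η * (A.card * B.card)) :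
    ∃ A' ⊆ A, ∃ B' ⊆ B, A'.Nonempty ∧ B'.Nonempty ∧
      (A.card : ℝ) * B.card ≤ 4 * (A'.card * B'.card) ∧
      ∀ a ∈ A', ∀ b ∈ B', ∃ k ∈ H, M a b = ρ k a + σ k b := by
  classical
  obtain ⟨A', hA', hcA, hrow⟩ := half_rows A B E hE η hη hB h
  set P : α → β → ℝ := fun a b => ∏ k ∈ H, (M a b - (ρ k a + σ k b)) with hP
  have hPRK : RK ((r + 2) ^ Q) P := by
    refine RK.mono (Nat.pow_le_pow_right (by omega) hQ) ?_
    exact RK.prod (fun k a b => M a b - (ρ k a + σ k b)) H (fun k _ => hr.sub_sep _ _)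
  have hrow' : ∀ a ∈ A', ((B.filter (fun b => P a b ≠ 0)).card : ℝ) ≤ (2 * η) * B.card := by
    intro a ha
    refine le_trans ?_ (hrow a ha)
    calc ((B.filter (fun b => P a b ≠ 0)).card : ℝ) = ∑ b ∈ B.filter (fun b => P a b ≠ 0), 1 := by simp
      _ ≤ ∑ b ∈ B.filter (fun b => P a b ≠ 0), E a b := by
          apply Finset.sum_le_sum
          intro b hb
          rw [Finset.mem_filter] at hb
          apply hE1 a (hA' ha) b hb.1
          intro k hk hk'
          apply hb.2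
          simp only [hP]
          exact Finset.prod_eq_zero hk (by rw [hk']; ring)
      _ ≤ _ := Finset.sum_le_sum_of_subset_of_nonneg (Finset.filter_subset _ _)
              (fun b hb _ => hE a (hA' ha) b hb)
  obtain ⟨B', hB', hcB, hz⟩ := exv A' B P ((r + 2) ^ Q) hPRK (2 * η) (by positivity) hrow' (by
    push_cast
    linarith)
  have hApos : (0 : ℝ) < A.card := by exact_mod_cast hA.card_pos
  have hBpos : (0 : ℝ) < B.card := by exact_mod_cast hB.card_pos
  have hA'pos : (0 : ℝ) < A'.card := by linarith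
  have hB'pos : (0 : ℝ) < B'.card := by linarith
  refine ⟨A', hA', B', hB', Finset.card_pos.mp (by exact_mod_cast hA'pos),
    Finset.card_pos.mp (by exact_mod_cast hB'pos), ?_, ?_⟩
  · calc (A.card : ℝ) * B.card ≤ (2 * A'.card) * (2 * B'.card) :=
          mul_le_mul hcA hcB hBpos.le (by positivity)
      _ = _ := by ring
  · intro a ha b hb
    have h1 := hz a ha b hb
    simp only [hP] at h1
    rw [Finset.prod_eq_zero_iff] at h1
    obtain ⟨k, hk, hk'⟩ := h1
    exact ⟨k, hk, by linarith⟩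

/-- Find the smallest function of a family, given constant comparisons. -/
lemma exists_ptwise_min {α β ι : Type*} (A : Finset α) (B : Finset β) (I : Finset ι)
    (hI : I.Nonempty) (z : ι → α → β → ℝ)
    (hc : ∀ i ∈ I, ∀ k ∈ I, (∀ a ∈ A, ∀ b ∈ B, z k a b ≤ z i a b) ∨
      (∀ a ∈ A, ∀ b ∈ B, z i a b ≤ z k a b)) :
    ∃ i ∈ I, ∀ k ∈ I, ∀ a ∈ A, ∀ b ∈ B, z i a b ≤ z k a b := by
  classical
  obtain ⟨i, hi, hmin⟩ := Finset.exists_min_image I (fun k => ∑ a ∈ A, ∑ b ∈ B, z k a b) hI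
  refine ⟨i, hi, fun k hk => ?_⟩
  rcases hc i hi k hk with h | h
  · have h1 := hmin k hk
    have h2 : ∑ a ∈ A, ∑ b ∈ B, (z i a b - z k a b) = 0 := by
      apply le_antisymm
      · simp_rw [Finset.sum_sub_distrib]
        linarith
      · exact Finset.sum_nonneg fun a ha => Finset.sum_nonneg fun b hb => by linarith [h a ha b hb]
    have h3 := (Finset.sum_eq_zero_iff_of_nonneg (fun a ha =>
      Finset.sum_nonneg fun b hb => by linarith [h a ha b hb])).mp h2
    intro a ha b hb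
    have h4 := (Finset.sum_eq_zero_iff_of_nonneg (fun b hb => by linarith [h a ha b hb])).mp
      (h3 a ha) b hb
    linarith
  · exact h

lemma exists_ptwise_max {α β ι : Type*} (A : Finset α) (B : Finset β) (I : Finset ι)
    (hI : I.Nonempty) (z : ι → α → β → ℝ)
    (hc : ∀ i ∈ I, ∀ k ∈ I, (∀ a ∈ A, ∀ b ∈ B, z k a b ≤ z i a b) ∨
      (∀ a ∈ A, ∀ b ∈ B, z i a b ≤ z k a b)) :
    ∃ j ∈ I, ∀ k ∈ I, ∀ a ∈ A, ∀ b ∈ B, z k a b ≤ z j a b := by
  obtain ⟨j, hj, h⟩ := exists_ptwise_min A B I hI (fun k a b => - z k a b) (fun i hi k hk => by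
    rcases hc i hi k hk with h | h
    · exact Or.inr fun a ha b hb => neg_le_neg (h a ha b hb)
    · exact Or.inl fun a ha b hb => neg_le_neg (h a ha b hb))
  exact ⟨j, hj, fun k hk a ha b hb => neg_le_neg_iff.mp (h k hk a ha b hb)⟩

/-- One reduction step for the list of values. -/
lemma gl_step {α β ι : Type*} (I : Finset ι) (Q : ℕ) (hQ : I.card = Q)
    (A : Finset α) (B : Finset β) (hA : A.Nonempty) (hB : B.Nonempty)
    (M : α → β → ℝ) (r : ℕ) (hr : RK r M) (ρ : ι → α → ℝ) (σ : ι → β → ℝ)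
    (hM : ∀ a ∈ A, ∀ b ∈ B, ∃ k ∈ I, M a b = ρ k a + σ k b)
    (η : ℝ) (hη : 0 < η) (hηQ : 4 * η * (r + 2 : ℝ) ^ Q ≤ 1)
    (s : ℝ) (hs : 1 ≤ s) (hexp : Real.exp (-s) ≤ η / 8) :
    ∃ A' ⊆ A, ∃ B' ⊆ B, A'.Nonempty ∧ B'.Nonempty ∧
      (A.card : ℝ) * B.card ≤
        (4 ^ (Q * Q * Q * (Q + 2)) * 64 * ampCost (r + 2) (4 * (Q + 1)) s + 4 ^ (Q * Q * Q * (Q + 2)) * 16) *
          (A'.card * B'.card) ∧
      ((∃ k ∈ I, ∀ a ∈ A', ∀ b ∈ B', M a b = ρ k a + σ k b) ∨
        ∃ H ⊆ I, H.card < Q ∧ ∀ a ∈ A', ∀ b ∈ B', ∃ k ∈ H, M a b = ρ k a + σ k b) := by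
  classical
  have hIne : I.Nonempty := by
    obtain ⟨a, ha⟩ := hA
    obtain ⟨b, hb⟩ := hB
    obtain ⟨k, hk, _⟩ := hM a ha b hb
    exact ⟨k, hk⟩
  set T : Finset (((ι × ι) × ι) × ℕ) := ((I ×ˢ I) ×ˢ I) ×ˢ Finset.range (Q + 2) with hT
  have hTcard : T.card = Q * Q * Q * (Q + 2) := by
    rw [hT]
    simp [Finset.card_product, hQ]
  set τ : ℕ → ℝ := fun c => (c : ℝ) / (Q + 1) with hτ
  set z : ι → α → β → ℝ := fun k a b => ρ k a + σ k b with hz
  obtain ⟨A1, hA1, B1, hB1, hcA1, hcB1, hcmp⟩ := cmpfam T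
    (fun t a => ρ t.1.2 a - (1 - τ t.2) * ρ t.1.1.1 a - τ t.2 * ρ t.1.1.2 a)
    (fun t b => -(σ t.1.2 b - (1 - τ t.2) * σ t.1.1.1 b - τ t.2 * σ t.1.1.2 b)) A B hA hB
  rw [hTcard] at hcA1 hcB1
  have hA1n : A1.Nonempty := nonempty_of_card_le hA hcA1
  have hB1n : B1.Nonempty := nonempty_of_card_le hB hcB1
  have hcmp' : ∀ i ∈ I, ∀ j ∈ I, ∀ k ∈ I, ∀ c ≤ Q + 1,
      (∀ a ∈ A1, ∀ b ∈ B1, z k a b ≤ (1 - τ c) * z i a b + τ c * z j a b) ∨
      (∀ a ∈ A1, ∀ b ∈ B1, (1 - τ c) * z i a b + τ c * z j a b ≤ z k a b) := by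
    intro i hi j hj k hk c hc
    have ht : (((i, j), k), c) ∈ T := by
      simp [hT, hi, hj, hk]
      omega
    rcases hcmp _ ht with h | h
    · refine Or.inl fun a ha b hb => ?_
      have := h a ha b hb
      simp only at this
      simp only [hz]
      linarith
    · refine Or.inr fun a ha b hb => ?_
      have := h a ha b hb
      simp only at this
      simp only [hz]
      linarith
  have hcmp0 : ∀ i ∈ I, ∀ k ∈ I, (∀ a ∈ A1, ∀ b ∈ B1, z k a b ≤ z i a b) ∨
      (∀ a ∈ A1, ∀ b ∈ B1, z i a b ≤ z k a b) := by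
    intro i hi k hk
    have h := hcmp' i hi i hi k hk 0 (by omega)
    simpa [hτ] using h
  obtain ⟨i, hi, hmin⟩ := exists_ptwise_min A1 B1 I hIne z hcmp0
  obtain ⟨j, hj, hmax⟩ := exists_ptwise_max A1 B1 I hIne z hcmp0
  -- normalise the range
  obtain ⟨A2, hA2, B2, hB2, hcA2, hcB2, hW⟩ := norm_sep A1 B1 hA1n hB1n
    (fun a => ρ j a - ρ i a) (fun b => σ j b - σ i b) (fun a ha b hb => by
      have := hmin j hj a ha b hb
      simp only [hz] at this
      linarith)
  have hA2n : A2.Nonempty := nonempty_of_card_le hA1n hcA2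
  have hB2n : B2.Nonempty := nonempty_of_card_le hB1n hcB2
  have hcost2 : (A.card : ℝ) * B.card ≤ (4 ^ (Q * Q * Q * (Q + 2)) * 16) * (A2.card * B2.card) := by
    have e1 : A.card ≤ 2 ^ (Q * Q * Q * (Q + 2)) * (4 * A2.card) :=
      hcA1.trans (Nat.mul_le_mul_left _ hcA2)
    have e2 : B.card ≤ 2 ^ (Q * Q * Q * (Q + 2)) * (4 * B2.card) :=
      hcB1.trans (Nat.mul_le_mul_left _ hcB2)
    have e3 : A.card * B.card ≤ (2 ^ (Q * Q * Q * (Q + 2)) * (4 * A2.card)) *
      (2 ^ (Q * Q * Q * (Q + 2)) * (4 * B2.card)) := Nat.mul_le_mul e1 e2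
    have e4 : (2 ^ (Q * Q * Q * (Q + 2)) * (4 * A2.card)) *
      (2 ^ (Q * Q * Q * (Q + 2)) * (4 * B2.card)) =
      (4 ^ (Q * Q * Q * (Q + 2)) * 16) * (A2.card * B2.card) := by
      have : (4 : ℕ) ^ (Q * Q * Q * (Q + 2)) = 2 ^ (Q * Q * Q * (Q + 2)) * 2 ^ (Q * Q * Q * (Q + 2)) := by
        rw [← mul_pow]
        norm_num
      rw [this]; ring
    rw [e4] at e3
    exact_mod_cast e3
  rcases hW with hW | ⟨x, y, hx, hy, hxy⟩
  · -- all functions agree
    refine ⟨A2, hA2.trans hA1, B2, hB2.trans hB1, hA2n, hB2n, ?_, Or.inl ⟨i, hi, ?_⟩⟩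
    · refine hcost2.trans (mul_le_mul_of_nonneg_right ?_ (by positivity))
      have := ampCost_pos (r + 2) (4 * (Q + 1)) s
      have : 0 ≤ (4 : ℝ) ^ (Q * Q * Q * (Q + 2)) * 64 * ampCost (r + 2) (4 * (Q + 1)) s := by positivity
      linarith
    · intro a ha b hb
      obtain ⟨k, hk, hMk⟩ := hM a (hA1 (hA2 ha)) b (hB1 (hB2 hb))
      have h1 := hmin k hk a (hA2 ha) b (hB2 hb)
      have h2 := hmax k hk a (hA2 ha) b (hB2 hb)
      have h3 := hW a ha b hb
      simp only [hz] at h1 h2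
      linarith
  · -- the main case
    set W : α → β → ℝ := fun a b => z j a b - z i a b with hWdef
    have hW1 : ∀ a ∈ A2, ∀ b ∈ B2, x a * y b ≤ W a b := by
      intro a ha b hb
      have := (hxy a ha b hb).1
      simp only [hWdef, hz]
      linarith
    have hW2 : ∀ a ∈ A2, ∀ b ∈ B2, W a b ≤ 2 * (x a * y b) := by
      intro a ha b hb
      have := (hxy a ha b hb).2
      simp only [hWdef, hz]
      linarith
    have hWpos : ∀ a ∈ A2, ∀ b ∈ B2, 0 < W a b := fun a ha b hb =>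
      lt_of_lt_of_le (mul_pos (hx a ha) (hy b hb)) (hW1 a ha b hb)
    have hQ1 : (0 : ℝ) < Q + 1 := by positivity
    -- position of each function
    have hpos : ∀ k ∈ I, ∃ c ≤ Q, (∀ a ∈ A1, ∀ b ∈ B1, (1 - τ c) * z i a b + τ c * z j a b ≤ z k a b) ∧
        (∀ a ∈ A1, ∀ b ∈ B1, z k a b ≤ (1 - τ (c + 1)) * z i a b + τ (c + 1) * z j a b) := by
      intro k hk
      set C : Finset ℕ := (Finset.range (Q + 1)).filter
        (fun c => ∀ a ∈ A1, ∀ b ∈ B1, (1 - τ c) * z i a b + τ c * z j a b ≤ z k a b) with hC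
      have hC0 : 0 ∈ C := by
        rw [hC, Finset.mem_filter]
        refine ⟨Finset.mem_range.mpr (by omega), fun a ha b hb => ?_⟩
        have := hmin k hk a ha b hb
        simpa [hτ] using this
      obtain ⟨c, hcC, hcmax⟩ := Finset.exists_max_image C id ⟨0, hC0⟩
      rw [hC, Finset.mem_filter, Finset.mem_range] at hcC
      refine ⟨c, by omega, hcC.2, ?_⟩
      rcases Nat.lt_or_ge c Q with hlt | hge
      · rcases hcmp' i hi j hj k hk (c + 1) (by omega) with h | h
        · exact h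
        · exfalso
          have : c + 1 ∈ C := by
            rw [hC, Finset.mem_filter, Finset.mem_range]
            exact ⟨by omega, h⟩
          have := hcmax _ this
          simp only [id] at this
          omega
      · have hcQ : c = Q := by omega
        intro a ha b hb
        have h1 : τ (c + 1) = 1 := by
          simp only [hτ]
          rw [hcQ]
          push_cast
          field_simp
        rw [h1]
        have := hmax k hk a ha b hb
        linarith
    choose! c hcQ hclow hcup using hpos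
    -- an empty interval
    obtain ⟨c0, hc0, hc0n⟩ : ∃ c0 ∈ Finset.range (Q + 1), c0 ∉ I.image c := by
      by_contra hcon
      push Not at hcon
      have h1 : Finset.range (Q + 1) ⊆ I.image c := hcon
      have h2 := (Finset.card_le_card h1).trans Finset.card_image_le
      rw [Finset.card_range, hQ] at h2
      omega
    rw [Finset.mem_range] at hc0
    have hcne : ∀ k ∈ I, c k ≠ c0 := fun k hk h => hc0n (Finset.mem_image.mpr ⟨k, hk, h⟩)
    set Lo : Finset ι := I.filter (fun k => c k < c0) with hLo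
    set Hi : Finset ι := I.filter (fun k => ¬ c k < c0) with hHi
    have hLoHi : ∀ k ∈ I, k ∈ Lo ∨ k ∈ Hi := by
      intro k hk
      by_cases h : c k < c0
      · exact Or.inl (Finset.mem_filter.mpr ⟨hk, h⟩)
      · exact Or.inr (Finset.mem_filter.mpr ⟨hk, h⟩)
    have hτmono : ∀ c d : ℕ, c ≤ d → τ c ≤ τ d := by
      intro c d hcd
      simp only [hτ]
      apply div_le_div_of_nonneg_right _ hQ1.le
      exact_mod_cast hcd
    have hTeq : ∀ (t : ℝ) a b, (1 - t) * z i a b + t * z j a b = z i a b + t * W a b := by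
      intro t a b
      simp only [hWdef]
      ring
    have hLo1 : ∀ k ∈ Lo, ∀ a ∈ A2, ∀ b ∈ B2, z k a b ≤ z i a b + τ c0 * W a b := by
      intro k hk a ha b hb
      rw [hLo, Finset.mem_filter] at hk
      have h1 := hcup k hk.1 a (hA2 ha) b (hB2 hb)
      rw [hTeq] at h1
      have h2 : τ (c k + 1) ≤ τ c0 := hτmono _ _ (by omega)
      have h3 := mul_le_mul_of_nonneg_right h2 (hWpos a ha b hb).le
      linarith
    have hHi1 : ∀ k ∈ Hi, ∀ a ∈ A2, ∀ b ∈ B2, z i a b + τ (c0 + 1) * W a b ≤ z k a b := by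
      intro k hk a ha b hb
      rw [hHi, Finset.mem_filter] at hk
      have h1 := hclow k hk.1 a (hA2 ha) b (hB2 hb)
      rw [hTeq] at h1
      have h4 := hcne k hk.1
      have h2 : τ (c0 + 1) ≤ τ (c k) := hτmono _ _ (by omega)
      have h3 := mul_le_mul_of_nonneg_right h2 (hWpos a ha b hb).le
      linarith
    obtain ⟨a0, ha0⟩ := hA2n
    obtain ⟨b0, hb0⟩ := hB2n
    have hLocard : Lo.card < Q := by
      rw [← hQ]
      apply Finset.card_lt_card
      refine (Finset.ssubset_iff_of_subset (Finset.filter_subset _ _)).mpr ⟨j, hj, fun hjL => ?_⟩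
      have h1 := hLo1 j hjL a0 ha0 b0 hb0
      have h2 := hWpos a0 ha0 b0 hb0
      have h3 : τ c0 < 1 := by
        simp only [hτ]
        rw [div_lt_one hQ1]
        exact_mod_cast hc0
      have h4 : τ c0 * W a0 b0 < 1 * W a0 b0 := mul_lt_mul_of_pos_right h3 h2
      simp only [hWdef] at h1 h4
      linarith
    have hHicard : Hi.card < Q := by
      rw [← hQ]
      apply Finset.card_lt_card
      refine (Finset.ssubset_iff_of_subset (Finset.filter_subset _ _)).mpr ⟨i, hi, fun hiH => ?_⟩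
      have h1 := hHi1 i hiH a0 ha0 b0 hb0
      have h2 := hWpos a0 ha0 b0 hb0
      have h3 : 0 < τ (c0 + 1) := by
        simp only [hτ]
        positivity
      have h4 : 0 < τ (c0 + 1) * W a0 b0 := mul_pos h3 h2
      linarith
    -- the threshold matrix
    set θ : ℝ := ((c0 : ℝ) + 1 / 2) / (Q + 1) with hθ
    have hθ1 : θ = τ c0 + 1 / (2 * (Q + 1)) := by
      simp only [hθ, hτ]
      field_simp
    have hθ2 : θ = τ (c0 + 1) - 1 / (2 * (Q + 1)) := by
      simp only [hθ, hτ]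
      push_cast
      field_simp
      ring
    have hθ0 : 0 ≤ θ := by positivity
    have hθle : θ ≤ 1 := by
      rw [hθ, div_le_one hQ1]
      have : (c0 : ℝ) ≤ Q := by exact_mod_cast Nat.lt_succ_iff.mp hc0
      linarith
    set x' : α → ℝ := fun a => if 0 < x a then x a else 1 with hx'
    set N : α → β → ℝ := fun a b =>
      (x a)⁻¹ * ((y b)⁻¹ * (2 * (Q + 1) * (M a b - ((ρ i a + θ * (ρ j a - ρ i a)) +
        (σ i b + θ * (σ j b - σ i b)))))) with hN
    have hNRK : RK (r + 2) N := by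
      have h1 : RK (r + 2) (fun a b => M a b - ((ρ i a + θ * (ρ j a - ρ i a)) +
        (σ i b + θ * (σ j b - σ i b)))) := hr.sub_sep _ _
      have h2 := h1.mul_row (fun _ => 2 * ((Q : ℝ) + 1))
      have h3 := h2.mul_col (fun b => (y b)⁻¹)
      have h4 := h3.mul_row (fun a => (x a)⁻¹)
      exact h4
    have hNform : ∀ a b, N a b = (x a)⁻¹ * ((y b)⁻¹ * (2 * (Q + 1) * (M a b - (z i a b + θ * W a b)))) := by
      intro a b
      simp only [hN, hWdef, hz]
      ring
    -- bounds for the entries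
    have hkey : ∀ a ∈ A2, ∀ b ∈ B2, ∀ D : ℝ, 0 ≤ D → 
        (x a)⁻¹ * ((y b)⁻¹ * (2 * (Q + 1) * D)) = 2 * (Q + 1) * D / (x a * y b) := by
      intro a ha b hb D _
      have := (hx a ha).ne'
      have := (hy b hb).ne'
      field_simp
    have hlowval : ∀ a ∈ A2, ∀ b ∈ B2, (∃ k ∈ Lo, M a b = z k a b) → N a b ≤ -1 := by
      intro a ha b hb ⟨k, hk, hMk⟩
      have h1 := hLo1 k hk a ha b hb
      rw [← hMk] at h1
      have h2 : M a b - (z i a b + θ * W a b) ≤ - (1 / (2 * (Q + 1)) * W a b) := by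
        rw [hθ1]; linarith
      have h3 := hW1 a ha b hb
      have hxyp := mul_pos (hx a ha) (hy b hb)
      rw [hNform]
      have h4 : 2 * ((Q : ℝ) + 1) * (M a b - (z i a b + θ * W a b)) ≤ - (x a * y b) := by
        have h5 : 2 * ((Q : ℝ) + 1) * (M a b - (z i a b + θ * W a b)) ≤
            2 * (Q + 1) * (- (1 / (2 * (Q + 1)) * W a b)) :=
          mul_le_mul_of_nonneg_left h2 (by positivity)
        have h6 : 2 * ((Q : ℝ) + 1) * (- (1 / (2 * (Q + 1)) * W a b)) = - W a b := by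
          field_simp
        linarith
      have h7 : (x a)⁻¹ * ((y b)⁻¹ * (2 * (Q + 1) * (M a b - (z i a b + θ * W a b)))) ≤
          (x a)⁻¹ * ((y b)⁻¹ * (- (x a * y b))) :=
        mul_le_mul_of_nonneg_left (mul_le_mul_of_nonneg_left h4 (inv_pos.mpr (hy b hb)).le)
          (inv_pos.mpr (hx a ha)).le
      have h8 : (x a)⁻¹ * ((y b)⁻¹ * (- (x a * y b))) = -1 := by
        have := (hx a ha).ne'
        have := (hy b hb).ne'
        field_simp
      linarith
    have hhival : ∀ a ∈ A2, ∀ b ∈ B2, (∃ k ∈ Hi, M a b = z k a b) → 1 ≤ N a b := by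
      intro a ha b hb ⟨k, hk, hMk⟩
      have h1 := hHi1 k hk a ha b hb
      rw [← hMk] at h1
      have h2 : 1 / (2 * (Q + 1)) * W a b ≤ M a b - (z i a b + θ * W a b) := by
        rw [hθ2]; linarith
      have h3 := hW1 a ha b hb
      have hxyp := mul_pos (hx a ha) (hy b hb)
      rw [hNform]
      have h4 : x a * y b ≤ 2 * ((Q : ℝ) + 1) * (M a b - (z i a b + θ * W a b)) := by
        have h5 : 2 * ((Q : ℝ) + 1) * (1 / (2 * (Q + 1)) * W a b) ≤
          2 * ((Q : ℝ) + 1) * (M a b - (z i a b + θ * W a b)) :=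
          mul_le_mul_of_nonneg_left h2 (by positivity)
        have h6 : 2 * ((Q : ℝ) + 1) * (1 / (2 * (Q + 1)) * W a b) = W a b := by
          field_simp
        linarith
      have h7 : (x a)⁻¹ * ((y b)⁻¹ * (x a * y b)) ≤
          (x a)⁻¹ * ((y b)⁻¹ * (2 * (Q + 1) * (M a b - (z i a b + θ * W a b)))) :=
        mul_le_mul_of_nonneg_left (mul_le_mul_of_nonneg_left h4 (inv_pos.mpr (hy b hb)).le)
          (inv_pos.mpr (hx a ha)).le
      have h8 : (x a)⁻¹ * ((y b)⁻¹ * (x a * y b)) = 1 := by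
        have := (hx a ha).ne'
        have := (hy b hb).ne'
        field_simp
      linarith
    have hcase : ∀ a ∈ A2, ∀ b ∈ B2, (∃ k ∈ Lo, M a b = z k a b) ∨ (∃ k ∈ Hi, M a b = z k a b) := by
      intro a ha b hb
      obtain ⟨k, hk, hMk⟩ := hM a (hA1 (hA2 ha)) b (hB1 (hB2 hb))
      rcases hLoHi k hk with h | h
      · exact Or.inl ⟨k, h, hMk⟩
      · exact Or.inr ⟨k, h, hMk⟩
    have hN1 : ∀ a ∈ A2, ∀ b ∈ B2, 1 ≤ |N a b| := by
      intro a ha b hb
      rcases hcase a ha b hb with h | h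
      · have := hlowval a ha b hb h
        rw [abs_of_neg (by linarith)]; linarith
      · have := hhival a ha b hb h
        rw [abs_of_pos (by linarith)]; linarith
    have hNK : ∀ a ∈ A2, ∀ b ∈ B2, |N a b| ≤ 4 * ((Q : ℝ) + 1) := by
      intro a ha b hb
      obtain ⟨k, hk, hMk⟩ := hM a (hA1 (hA2 ha)) b (hB1 (hB2 hb))
      have h1 := hmin k hk a (hA2 ha) b (hB2 hb)
      have h2 := hmax k hk a (hA2 ha) b (hB2 hb)
      have hMk' : M a b = z k a b := hMk
      rw [← hMk'] at h1 h2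
      have hWp := hWpos a ha b hb
      have h3 : |M a b - (z i a b + θ * W a b)| ≤ W a b := by
        have e1 : θ * W a b ≤ 1 * W a b := mul_le_mul_of_nonneg_right hθle hWp.le
        have e2 : 0 ≤ θ * W a b := mul_nonneg hθ0 hWp.le
        have e3 : W a b = z j a b - z i a b := rfl
        rw [abs_le]
        constructor <;> linarith
      have hxyp := mul_pos (hx a ha) (hy b hb)
      rw [hNform, abs_mul, abs_mul, abs_mul, abs_of_pos (inv_pos.mpr (hx a ha)),
        abs_of_pos (inv_pos.mpr (hy b hb)), abs_of_pos (by positivity : (0 : ℝ) < 2 * (Q + 1))]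
      have h4 : |M a b - (z i a b + θ * W a b)| ≤ 2 * (x a * y b) := h3.trans (hW2 a ha b hb)
      calc (x a)⁻¹ * ((y b)⁻¹ * (2 * (Q + 1) * |M a b - (z i a b + θ * W a b)|)) ≤
          (x a)⁻¹ * ((y b)⁻¹ * (2 * (Q + 1) * (2 * (x a * y b)))) := by
            apply mul_le_mul_of_nonneg_left _ (inv_pos.mpr (hx a ha)).le
            apply mul_le_mul_of_nonneg_left _ (inv_pos.mpr (hy b hb)).le
            apply mul_le_mul_of_nonneg_left h4 (by positivity)
        _ = 4 * ((Q : ℝ) + 1) := by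
            have := (hx a ha).ne'
            have := (hy b hb).ne'
            field_simp
            ring
    have hA2n : A2.Nonempty := ⟨a0, ha0⟩
    have hB2n : B2.Nonempty := ⟨b0, hb0⟩
    obtain ⟨A3, hA3, B3, hB3, hA3n, hB3n, hc3, hsign⟩ := amp A2 B2 hA2n hB2n N (r + 2) (by omega)
      hNRK (4 * ((Q : ℝ) + 1)) (by linarith) hN1 hNK η hη s hs hexp
    have hfinal : ∀ (H : Finset ι) (E : α → β → ℝ), H ⊆ I → H.card < Q →
        (∀ a ∈ A3, ∀ b ∈ B3, 0 ≤ E a b) →
        (∀ a ∈ A3, ∀ b ∈ B3, (∀ k ∈ H, M a b ≠ ρ k a + σ k b) → 1 ≤ E a b) →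
        (∑ a ∈ A3, ∑ b ∈ B3, E a b ≤ η * (A3.card * B3.card)) →
        ∃ A' ⊆ A, ∃ B' ⊆ B, A'.Nonempty ∧ B'.Nonempty ∧
          (A.card : ℝ) * B.card ≤
            (4 ^ (Q * Q * Q * (Q + 2)) * 64 * ampCost (r + 2) (4 * (Q + 1)) s +
              4 ^ (Q * Q * Q * (Q + 2)) * 16) * (A'.card * B'.card) ∧
          ((∃ k ∈ I, ∀ a ∈ A', ∀ b ∈ B', M a b = ρ k a + σ k b) ∨
            ∃ H ⊆ I, H.card < Q ∧ ∀ a ∈ A', ∀ b ∈ B', ∃ k ∈ H, M a b = ρ k a + σ k b) := by
      intro H E hHI hHc hE0 hE1 hEs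
      obtain ⟨A4, hA4, B4, hB4, hA4n, hB4n, hc4, hl⟩ := exact_list A3 B3 hA3n hB3n M r hr H ρ σ Q
        hHc.le E hE0 hE1 η hη hηQ hEs
      refine ⟨A4, hA4.trans (hA3.trans (hA2.trans hA1)), B4, hB4.trans (hB3.trans (hB2.trans hB1)),
        hA4n, hB4n, ?_, Or.inr ⟨H, hHI, hHc, hl⟩⟩
      have hamp := ampCost_pos (r + 2) (4 * (Q + 1)) s
      have h5 : (A.card : ℝ) * B.card ≤ (4 ^ (Q * Q * Q * (Q + 2)) * 16) *
          (ampCost (r + 2) (4 * (Q + 1)) s * (4 * (A4.card * B4.card))) := by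
        refine hcost2.trans (mul_le_mul_of_nonneg_left ?_ (by positivity))
        refine hc3.trans (mul_le_mul_of_nonneg_left hc4 hamp.le)
      have h6 : (0 : ℝ) ≤ 4 ^ (Q * Q * Q * (Q + 2)) * 16 * (A4.card * B4.card) := by positivity
      linarith
    rcases hsign with h | h
    · -- few negative entries: values in Hi
      refine hfinal Hi (fun a b => if N a b < 0 then 1 else 0) (Finset.filter_subset _ _) hHicard
        (fun a _ b _ => by split_ifs <;> norm_num) ?_ h
      intro a ha b hb hne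
      have h1 : N a b ≤ -1 := by
        apply hlowval a (hA3 ha) b (hB3 hb)
        rcases hcase a (hA3 ha) b (hB3 hb) with h | ⟨k, hk, hMk⟩
        · exact h
        · exact absurd hMk (hne k hk)
      rw [if_pos (by linarith)]
    · refine hfinal Lo (fun a b => if 0 < N a b then 1 else 0) (Finset.filter_subset _ _) hLocard
        (fun a _ b _ => by split_ifs <;> norm_num) ?_ h
      intro a ha b hb hne
      have h1 : 1 ≤ N a b := by
        apply hhival a (hA3 ha) b (hB3 hb)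
        rcases hcase a (hA3 ha) b (hB3 hb) with ⟨k, hk, hMk⟩ | h
        · exact absurd hMk (hne k hk)
        · exact h
      rw [if_pos (by linarith)]

end Pool.Agent.Helper433
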