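import Mathlib
import Pool.Agent.Helper433.GL

set_option autoImplicit false

namespace Pool.Agent.Helper433

open Finset

lemma s_bound (Q r : ℕ) (hr : 1 ≤ r) :
    Real.log (32 * ((r : ℝ) + 2) ^ Q) ≤ (4 + 8 * Q) * (r : ℝ) ^ (1 / 4 : ℝ) := by
  have hr' : (1 : ℝ) ≤ r := by exact_mod_cast hr
  have h1 : (1 : ℝ) ≤ (r : ℝ) ^ (1 / 4 : ℝ) := Real.one_le_rpow hr' (by norm_num)
  rw [Real.log_mul (by norm_num) (by positivity), Real.log_pow]
  have h2 : Real.log 32 ≤ 4 := by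
    have : Real.log 32 = 5 * Real.log 2 := by
      rw [show (32 : ℝ) = 2 ^ 5 by norm_num, Real.log_pow]
      norm_num
    rw [this]
    linarith [Real.log_two_lt_d9]
  have h3 : Real.log ((r : ℝ) + 2) ≤ 8 * (r : ℝ) ^ (1 / 4 : ℝ) := by
    have h4 := Real.log_le_rpow_div (x := (r : ℝ) + 2) (by positivity) (ε := 1 / 4) (by norm_num)
    have h5 : ((r : ℝ) + 2) ^ (1 / 4 : ℝ) ≤ 2 * (r : ℝ) ^ (1 / 4 : ℝ) := by
      calc ((r : ℝ) + 2) ^ (1 / 4 : ℝ) ≤ (16 * (r : ℝ)) ^ (1 / 4 : ℝ) :=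
            Real.rpow_le_rpow (by positivity) (by linarith) (by norm_num)
        _ = (16 : ℝ) ^ (1 / 4 : ℝ) * (r : ℝ) ^ (1 / 4 : ℝ) :=
            Real.mul_rpow (by norm_num) (by positivity)
        _ = 2 * (r : ℝ) ^ (1 / 4 : ℝ) := by
            congr 1
            rw [show (16 : ℝ) = 2 ^ (4 : ℝ) by norm_num, ← Real.rpow_mul (by norm_num)]
            norm_num
    calc Real.log ((r : ℝ) + 2) ≤ ((r : ℝ) + 2) ^ (1 / 4 : ℝ) / (1 / 4) := h4
      _ ≤ 2 * (r : ℝ) ^ (1 / 4 : ℝ) / (1 / 4) := div_le_div_of_nonneg_right h5 (by norm_num)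
      _ = _ := by ring
  have h6 : (Q : ℝ) * Real.log ((r : ℝ) + 2) ≤ Q * (8 * (r : ℝ) ^ (1 / 4 : ℝ)) :=
    mul_le_mul_of_nonneg_left h3 (by positivity)
  nlinarith

lemma s_ge_one (Q r : ℕ) : 1 ≤ Real.log (32 * ((r : ℝ) + 2) ^ Q) := by
  have h1 : Real.log (Real.exp 1) ≤ Real.log (32 * ((r : ℝ) + 2) ^ Q) := by
    apply Real.log_le_log (Real.exp_pos _)
    have h2 : (1 : ℝ) ≤ ((r : ℝ) + 2) ^ Q := one_le_pow₀ (by linarith [(Nat.cast_nonneg r : (0 : ℝ) ≤ r)])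
    linarith [Real.exp_one_lt_d9]
  rwa [Real.log_exp] at h1

lemma cost_bound (Q : ℕ) : ∃ C : ℝ, 0 ≤ C ∧ ∀ r : ℕ, 1 ≤ r →
    4 ^ (Q * Q * Q * (Q + 2)) * 64 * ampCost (r + 2) (4 * (Q + 1)) (Real.log (32 * ((r : ℝ) + 2) ^ Q)) +
      4 ^ (Q * Q * Q * (Q + 2)) * 16 ≤ Real.exp (C * (r : ℝ) ^ (3 / 4 : ℝ)) := by
  set T : ℝ := 4 ^ (Q * Q * Q * (Q + 2)) with hT
  have hT1 : 1 ≤ T := one_le_pow₀ (by norm_num)
  set K : ℝ := 4 * (Q + 1) with hK
  have hK0 : 0 < K := by positivity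
  set c1 : ℝ := 4 + 8 * Q with hc1
  have hc10 : 0 < c1 := by positivity
  refine ⟨10 * K * c1 + Real.log (T * 16400), ?_, ?_⟩
  · have : 0 ≤ Real.log (T * 16400) := Real.log_nonneg (by nlinarith)
    positivity
  intro r hr
  have hr' : (1 : ℝ) ≤ r := by exact_mod_cast hr
  have hr0 : (0 : ℝ) ≤ r := by linarith
  set s := Real.log (32 * ((r : ℝ) + 2) ^ Q) with hs
  have hsb : s ≤ c1 * (r : ℝ) ^ (1 / 4 : ℝ) := s_bound Q r hr
  have hs1 : 1 ≤ s := s_ge_one Q r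
  set x : ℝ := (r : ℝ) ^ (3 / 4 : ℝ) with hx
  have hx1 : 1 ≤ x := Real.one_le_rpow hr' (by norm_num)
  have hq : √(2 * ((r + 2 : ℕ) : ℝ)) ≤ 3 * (r : ℝ) ^ (1 / 2 : ℝ) := by
    rw [← Real.sqrt_eq_rpow]
    apply Real.sqrt_le_iff.mpr
    refine ⟨by positivity, ?_⟩
    rw [mul_pow, Real.sq_sqrt hr0]
    push_cast
    linarith
  have hsq : s * √(2 * ((r + 2 : ℕ) : ℝ)) ≤ 3 * c1 * x := by
    calc s * √(2 * ((r + 2 : ℕ) : ℝ)) ≤ (c1 * (r : ℝ) ^ (1 / 4 : ℝ)) * (3 * (r : ℝ) ^ (1 / 2 : ℝ)) :=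
          mul_le_mul hsb hq (Real.sqrt_nonneg _) (by positivity)
      _ = 3 * c1 * ((r : ℝ) ^ (1 / 4 : ℝ) * (r : ℝ) ^ (1 / 2 : ℝ)) := by ring
      _ = 3 * c1 * x := by
          rw [← Real.rpow_add (by linarith), hx]
          norm_num
  have hsx : s ≤ c1 * x := by
    refine hsb.trans (mul_le_mul_of_nonneg_left ?_ hc10.le)
    exact Real.rpow_le_rpow_of_exponent_le hr' (by norm_num)
  have hamp : ampCost (r + 2) K s ≤ 256 * Real.exp (10 * K * c1 * x) := by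
    unfold ampCost
    rw [mul_pow, ← Real.exp_nat_mul]
    have : ((2 : ℕ) : ℝ) * (s * K * √(2 * ((r + 2 : ℕ) : ℝ)) + 2 * s * K) ≤ 10 * K * c1 * x := by
      push_cast at hsq ⊢
      have e1 := mul_le_mul_of_nonneg_left hsq hK0.le
      have e2 := mul_le_mul_of_nonneg_left hsx hK0.le
      nlinarith
    have h2 := Real.exp_le_exp.mpr this
    nlinarith
  have hE1 : 1 ≤ Real.exp (10 * K * c1 * x) := Real.one_le_exp (by positivity)
  calc T * 64 * ampCost (r + 2) K s + T * 16 ≤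
      T * 64 * (256 * Real.exp (10 * K * c1 * x)) + T * 16 * Real.exp (10 * K * c1 * x) := by
        apply add_le_add
        · exact mul_le_mul_of_nonneg_left hamp (by positivity)
        · nlinarith
    _ = (T * 16400) * Real.exp (10 * K * c1 * x) := by ring
    _ = Real.exp (Real.log (T * 16400)) * Real.exp (10 * K * c1 * x) := by
        rw [Real.exp_log (by positivity)]
    _ ≤ Real.exp (Real.log (T * 16400) * x) * Real.exp (10 * K * c1 * x) := by
        apply mul_le_mul_of_nonneg_right _ (Real.exp_pos _).le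
        apply Real.exp_le_exp.mpr
        have : 0 ≤ Real.log (T * 16400) := Real.log_nonneg (by nlinarith)
        nlinarith
    _ = _ := by
        rw [← Real.exp_add]
        congr 1
        ring

/-- Generalised Lovett theorem: a matrix of rank at most `r`, each entry of which belongs to a
list of at most `q` separable functions, coincides with one of them on a large rectangle. -/
theorem gl (q : ℕ) : ∃ C : ℝ, 0 ≤ C ∧ ∀ r : ℕ, 1 ≤ r →
    ∀ (α β ι : Type) (I : Finset ι), I.card ≤ q → ∀ (A : Finset α) (B : Finset β),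
    A.Nonempty → B.Nonempty → ∀ M : α → β → ℝ, RK r M → ∀ (ρ : ι → α → ℝ) (σ : ι → β → ℝ),
    (∀ a ∈ A, ∀ b ∈ B, ∃ k ∈ I, M a b = ρ k a + σ k b) →
    ∃ A' ⊆ A, ∃ B' ⊆ B, A'.Nonempty ∧ B'.Nonempty ∧
      (A.card : ℝ) * B.card ≤ Real.exp (C * (r : ℝ) ^ (3 / 4 : ℝ)) * (A'.card * B'.card) ∧
      ∃ k ∈ I, ∀ a ∈ A', ∀ b ∈ B', M a b = ρ k a + σ k b := by
  induction q with
  | zero =>
    refine ⟨0, le_refl _, ?_⟩
    intro r hr α β ι I hI A B hA hB M hM ρ σ h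
    exfalso
    obtain ⟨a, ha⟩ := hA
    obtain ⟨b, hb⟩ := hB
    obtain ⟨k, hk, _⟩ := h a ha b hb
    have : I = ∅ := Finset.card_eq_zero.mp (Nat.le_zero.mp hI)
    rw [this] at hk
    simp at hk
  | succ q ih =>
    obtain ⟨C, hC0, hC⟩ := ih
    obtain ⟨C1, hC10, hC1⟩ := cost_bound (q + 1)
    refine ⟨C1 + C, by positivity, ?_⟩
    intro r hr α β ι I hI A B hA hB M hM ρ σ h
    have hr' : (1 : ℝ) ≤ r := by exact_mod_cast hr
    have hx0 : (0 : ℝ) ≤ (r : ℝ) ^ (3 / 4 : ℝ) := by positivity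
    rcases Nat.lt_or_ge I.card (q + 1) with hlt | hge
    · obtain ⟨A', hA', B', hB', hn1, hn2, hc, hk⟩ := hC r hr α β ι I (by omega) A B hA hB M hM ρ σ h
      refine ⟨A', hA', B', hB', hn1, hn2, hc.trans ?_, hk⟩
      apply mul_le_mul_of_nonneg_right _ (by positivity)
      apply Real.exp_le_exp.mpr
      apply mul_le_mul_of_nonneg_right _ hx0
      linarith
    · have hIc : I.card = q + 1 := by omega
      set η : ℝ := 1 / (4 * ((r : ℝ) + 2) ^ (q + 1)) with hη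
      have hηpos : 0 < η := by positivity
      have hηQ : 4 * η * (r + 2 : ℝ) ^ (q + 1) ≤ 1 := by
        rw [hη]
        apply le_of_eq
        field_simp
      set s := Real.log (32 * ((r : ℝ) + 2) ^ (q + 1)) with hs
      have hexp : Real.exp (-s) ≤ η / 8 := by
        rw [Real.exp_neg, hs, Real.exp_log (by positivity), hη]
        apply le_of_eq
        field_simp
        norm_num
      obtain ⟨A1, hA1, B1, hB1, hA1n, hB1n, hc1, hcase⟩ := gl_step I (q + 1) hIc A B hA hB M r hM ρ σ h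
        η hηpos hηQ s (s_ge_one _ _) hexp
      have hcost : (A.card : ℝ) * B.card ≤ Real.exp (C1 * (r : ℝ) ^ (3 / 4 : ℝ)) *
          (A1.card * B1.card) := by
        refine hc1.trans (mul_le_mul_of_nonneg_right ?_ (by positivity))
        have h1 := hC1 r hr
        rw [← hs] at h1
        have h2 : (4 : ℝ) ^ ((q + 1) * (q + 1) * (q + 1) * (q + 1 + 2)) * 64 *
            ampCost (r + 2) (4 * (((q + 1 : ℕ) : ℝ) + 1)) s +
            (4 : ℝ) ^ ((q + 1) * (q + 1) * (q + 1) * (q + 1 + 2)) * 16 ≤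
            Real.exp (C1 * (r : ℝ) ^ (3 / 4 : ℝ)) := h1
        exact h2
      rcases hcase with ⟨k, hk, hMk⟩ | ⟨H, hHI, hHc, hH⟩
      · refine ⟨A1, hA1, B1, hB1, hA1n, hB1n, hcost.trans ?_, k, hk, hMk⟩
        apply mul_le_mul_of_nonneg_right _ (by positivity)
        apply Real.exp_le_exp.mpr
        apply mul_le_mul_of_nonneg_right _ hx0
        linarith
      · obtain ⟨A2, hA2, B2, hB2, hn1, hn2, hc, k, hk, hMk⟩ := hC r hr α β ι H (by omega) A1 B1 hA1n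
          hB1n M hM ρ σ hH
        refine ⟨A2, hA2.trans hA1, B2, hB2.trans hB1, hn1, hn2, ?_, k, hHI hk, hMk⟩
        calc (A.card : ℝ) * B.card ≤ Real.exp (C1 * (r : ℝ) ^ (3 / 4 : ℝ)) *
              (A1.card * B1.card) := hcost
          _ ≤ Real.exp (C1 * (r : ℝ) ^ (3 / 4 : ℝ)) *
              (Real.exp (C * (r : ℝ) ^ (3 / 4 : ℝ)) * (A2.card * B2.card)) :=
              mul_le_mul_of_nonneg_left hc (Real.exp_pos _).le
          _ = Real.exp ((C1 + C) * (r : ℝ) ^ (3 / 4 : ℝ)) * (A2.card * B2.card) := by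
              rw [add_mul, Real.exp_add]
              ring

end Pool.Agent.Helper433
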