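import Mathlib
import Pool.Agent.Helper433.GL2

set_option autoImplicit false

namespace Pool.Agent.Helper433

open Finset

/-- For all but a `1/N` fraction of the rows `a` in `A`, at least `η|B|` of the columns `b` of `B`
avoid the forbidden values of the row and of the column. -/
def NDP {α : Type} (M : α → α → ℝ) (Y : Finset α) (S N : ℕ) (η μ : ℝ) : Prop :=
  ∀ A ⊆ Y, ∀ B ⊆ Y, μ * Y.card ≤ A.card → μ * Y.card ≤ B.card →
    ∀ R Q : α → Finset ℝ, (∀ a, (R a).card ≤ S) → (∀ b, (Q b).card ≤ S) →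
      ∀ Bad ⊆ A, (∀ a ∈ Bad, ((B.filter (fun b => M a b ∉ R a ∧ M a b ∉ Q b)).card : ℝ) <
        η * B.card) → (N : ℝ) * Bad.card ≤ A.card

lemma exists_enum (T : Finset ℝ) (S : ℕ) (h : T.card ≤ S) :
    ∃ f : Fin S → ℝ, ∀ x ∈ T, ∃ k, f k = x := by
  classical
  rcases T.eq_empty_or_nonempty with hT | hT
  · exact ⟨fun _ => 0, by simp [hT]⟩
  · obtain ⟨x0, hx0⟩ := hT
    refine ⟨fun k => if hk : k.val < T.card then (T.equivFin.symm ⟨k.val, hk⟩ : ℝ) else x0, ?_⟩
    intro x hx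
    refine ⟨⟨(T.equivFin ⟨x, hx⟩).val, lt_of_lt_of_le (T.equivFin ⟨x, hx⟩).isLt h⟩, ?_⟩
    simp

theorem ndp (S : ℕ) : ∃ C : ℝ, 0 ≤ C ∧ ∀ r : ℕ, 1 ≤ r → ∀ (α : Type) (Y : Finset α)
    (M M' : α → α → ℝ), RK r M' → (∀ a ∈ Y, ∀ b ∈ Y, M a b = M' a b) → ∀ H : ℝ,
    (∀ A ⊆ Y, ∀ B ⊆ Y, A.Nonempty → B.Nonempty → ∀ ρ σ : α → ℝ,
      (∀ a ∈ A, ∀ b ∈ B, M a b = ρ a + σ b) →
      (A.card : ℝ) * B.card * Real.exp H ≤ (Y.card : ℝ) ^ 2) →
    ∀ (N : ℕ) (μ : ℝ), 0 < μ →
      2 * N * Real.exp (C * (r : ℝ) ^ (3 / 4 : ℝ)) ≤ μ ^ 2 * Real.exp H →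
      NDP M Y S N (1 / (2 * ((r : ℝ) + 2) ^ (2 * S))) μ := by
  classical
  obtain ⟨C, hC0, hC⟩ := gl (2 * S)
  refine ⟨C, hC0, ?_⟩
  intro r hr α Y M M' hRK hMM H hLenz N μ hμ hN A hA B hB hAc hBc R Q hR hQ Bad hBad hrow
  rcases Bad.eq_empty_or_nonempty with hBe | hBn
  · simp [hBe]
  -- B is nonempty
  have hYn : Y.Nonempty := by
    obtain ⟨a, ha⟩ := hBn
    exact ⟨a, hA (hBad ha)⟩
  have hYc : (0 : ℝ) < Y.card := by exact_mod_cast Finset.card_pos.mpr hYn
  have hBpos : (0 : ℝ) < B.card := lt_of_lt_of_le (by positivity) hBc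
  have hApos : (0 : ℝ) < A.card := lt_of_lt_of_le (by positivity) hAc
  have hBne : B.Nonempty := Finset.card_pos.mp (by exact_mod_cast hBpos)
  choose f hf using fun a => exists_enum (R a) S (hR a)
  choose g hg using fun b => exists_enum (Q b) S (hQ b)
  set ρ : Fin S ⊕ Fin S → α → ℝ := Sum.elim (fun k a => f a k) (fun _ _ => 0) with hρ
  set σ : Fin S ⊕ Fin S → α → ℝ := Sum.elim (fun _ _ => 0) (fun k b => g b k) with hσ
  set P : α → α → ℝ := fun a b => ∏ k ∈ (Finset.univ : Finset (Fin S ⊕ Fin S)),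
    (M' a b - (ρ k a + σ k b)) with hP
  have hPRK : RK ((r + 2) ^ (2 * S)) P := by
    have := RK.prod (r := r + 2) (fun k a b => M' a b - (ρ k a + σ k b))
      (Finset.univ : Finset (Fin S ⊕ Fin S)) (fun k _ => RK.sub_sep hRK (ρ k) (σ k))
    have hcard : (Finset.univ : Finset (Fin S ⊕ Fin S)).card = 2 * S := by
      simp [two_mul]
    rw [hcard] at this
    exact this
  have hη : (0 : ℝ) < 1 / (2 * ((r : ℝ) + 2) ^ (2 * S)) := by positivity
  have hrow' : ∀ a ∈ Bad, ((B.filter (fun b => P a b ≠ 0)).card : ℝ) ≤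
      1 / (2 * ((r : ℝ) + 2) ^ (2 * S)) * B.card := by
    intro a ha
    refine le_trans ?_ (hrow a ha).le
    have hsub : B.filter (fun b => P a b ≠ 0) ⊆
        B.filter (fun b => M a b ∉ R a ∧ M a b ∉ Q b) := by
      intro b hb
      rw [Finset.mem_filter] at hb ⊢
      obtain ⟨hb1, hb2⟩ := hb
      refine ⟨hb1, ?_, ?_⟩
      · intro hmem
        obtain ⟨k, hk⟩ := hf a _ hmem
        apply hb2
        apply Finset.prod_eq_zero (Finset.mem_univ (Sum.inl k))
        simp only [hρ, hσ, Sum.elim_inl]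
        rw [hk, hMM a (hA (hBad ha)) b (hB hb1)]
        ring
      · intro hmem
        obtain ⟨k, hk⟩ := hg b _ hmem
        apply hb2
        apply Finset.prod_eq_zero (Finset.mem_univ (Sum.inr k))
        simp only [hρ, hσ, Sum.elim_inr]
        rw [hk, hMM a (hA (hBad ha)) b (hB hb1)]
        ring
    exact_mod_cast Finset.card_le_card hsub
  obtain ⟨B', hB', hB'c, hB'0⟩ := exv Bad B P _ hPRK _ hη.le hrow' (by
    push_cast
    apply le_of_eq
    field_simp)
  have hB'ne : B'.Nonempty := by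
    rw [← Finset.card_pos]
    by_contra hc
    have : B'.card = 0 := by omega
    rw [this] at hB'c
    simp only [Nat.cast_zero, mul_zero] at hB'c
    linarith
  obtain ⟨A2, hA2, B2, hB2, hA2n, hB2n, hc, k, -, hk⟩ := hC r hr α α (Fin S ⊕ Fin S) Finset.univ
    (by simp [two_mul]) Bad B' hBn hB'ne M' hRK ρ σ (by
      intro a ha b hb
      have h0 := hB'0 a ha b hb
      rw [hP] at h0
      simp only at h0
      rw [Finset.prod_eq_zero_iff] at h0
      obtain ⟨k, hk, hk0⟩ := h0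
      exact ⟨k, hk, by linarith⟩)
  have hL := hLenz A2 (hA2.trans (hBad.trans hA)) B2 (hB2.trans (hB'.trans hB)) hA2n hB2n (ρ k) (σ k)
    (by
      intro a ha b hb
      rw [hMM a (hA (hBad (hA2 ha))) b (hB (hB' (hB2 hb)))]
      exact hk a ha b hb)
  -- now the computation
  set X := Real.exp (C * (r : ℝ) ^ (3 / 4 : ℝ)) with hX
  have hXpos : 0 < X := Real.exp_pos _
  set G := Real.exp H with hG
  have hGpos : 0 < G := Real.exp_pos _
  have hBadpos : (0 : ℝ) ≤ Bad.card := by positivity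
  have h1 : (Bad.card : ℝ) * B.card * G ≤ 2 * X * (Y.card : ℝ) ^ 2 := by
    calc (Bad.card : ℝ) * B.card * G ≤ (Bad.card : ℝ) * (2 * B'.card) * G := by
          apply mul_le_mul_of_nonneg_right _ hGpos.le
          exact mul_le_mul_of_nonneg_left hB'c hBadpos
      _ = 2 * G * ((Bad.card : ℝ) * B'.card) := by ring
      _ ≤ 2 * G * (X * (A2.card * B2.card)) := mul_le_mul_of_nonneg_left hc (by positivity)
      _ = 2 * X * ((A2.card : ℝ) * B2.card * G) := by ring
      _ ≤ 2 * X * (Y.card : ℝ) ^ 2 := mul_le_mul_of_nonneg_left hL (by positivity)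
  have h2 : (N : ℝ) * Bad.card * (B.card * G) ≤ A.card * (B.card * G) := by
    calc (N : ℝ) * Bad.card * (B.card * G) = N * ((Bad.card : ℝ) * B.card * G) := by ring
      _ ≤ N * (2 * X * (Y.card : ℝ) ^ 2) := mul_le_mul_of_nonneg_left h1 (by positivity)
      _ = (2 * N * X) * (Y.card : ℝ) ^ 2 := by ring
      _ ≤ (μ ^ 2 * G) * (Y.card : ℝ) ^ 2 := mul_le_mul_of_nonneg_right hN (by positivity)
      _ = (μ * Y.card) * (μ * Y.card) * G := by ring
      _ ≤ (A.card * B.card) * G := by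
          apply mul_le_mul_of_nonneg_right _ hGpos.le
          exact mul_le_mul hAc hBc (by positivity) (by positivity)
      _ = A.card * (B.card * G) := by ring
  exact le_of_mul_le_mul_right h2 (by positivity)

end Pool.Agent.Helper433
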