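import Mathlib
import Pool.Agent.Helper433.Ndp

set_option autoImplicit false

namespace Pool.Agent.Helper433

open Finset

/-- Dimension of the affine span of a finite set. -/
noncomputable def adim {d : ℕ} (Z : Finset (EuclideanSpace ℝ (Fin d))) : ℕ :=
  Module.finrank ℝ (vectorSpan ℝ (Z : Set (EuclideanSpace ℝ (Fin d))))

lemma adim_mono {d : ℕ} {Z W : Finset (EuclideanSpace ℝ (Fin d))} (h : Z ⊆ W) :
    adim Z ≤ adim W := by
  unfold adim
  apply Submodule.finrank_mono
  exact vectorSpan_mono ℝ (by exact_mod_cast h)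

lemma adim_le {d : ℕ} (Z : Finset (EuclideanSpace ℝ (Fin d))) : adim Z ≤ d := by
  unfold adim
  have := Submodule.finrank_le (vectorSpan ℝ (Z : Set (EuclideanSpace ℝ (Fin d))))
  simpa using this

/-- Lenz: if the squared distance between two finite sets is a sum of a function of the first point
and a function of the second point then the sets live in orthogonal affine subspaces. -/
lemma lenz {d : ℕ} (Y A B : Finset (EuclideanSpace ℝ (Fin d))) (hA : A ⊆ Y) (hB : B ⊆ Y)
    (ρ σ : EuclideanSpace ℝ (Fin d) → ℝ)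
    (h : ∀ a ∈ A, ∀ b ∈ B, ‖a - b‖ ^ 2 = ρ a + σ b) :
    adim A + adim B ≤ adim Y := by
  set U := vectorSpan ℝ (A : Set (EuclideanSpace ℝ (Fin d))) with hU
  set V := vectorSpan ℝ (B : Set (EuclideanSpace ℝ (Fin d))) with hV
  have horth : U ⟂ V := by
    rw [hU, hV, vectorSpan_def, vectorSpan_def, Submodule.isOrtho_span]
    rintro u ⟨a, ha, a', ha', rfl⟩ v ⟨b, hb, b', hb', rfl⟩
    have h1 := h a ha b hb
    have h2 := h a ha b' hb'
    have h3 := h a' ha' b hb
    have h4 := h a' ha' b' hb'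
    simp only [vsub_eq_sub]
    rw [norm_sub_sq_real] at h1 h2 h3 h4
    rw [inner_sub_left, inner_sub_right, inner_sub_right]
    linarith
  have hdisj : Disjoint U V := horth.disjoint
  have h1 : Module.finrank ℝ ↥(U ⊔ V) = Module.finrank ℝ U + Module.finrank ℝ V := by
    have := Submodule.finrank_sup_add_finrank_inf_eq U V
    rw [hdisj.eq_bot] at this
    simpa using this
  have h2 : U ⊔ V ≤ vectorSpan ℝ (Y : Set (EuclideanSpace ℝ (Fin d))) := by
    apply sup_le
    · exact vectorSpan_mono ℝ (by exact_mod_cast hA)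
    · exact vectorSpan_mono ℝ (by exact_mod_cast hB)
  have h3 := Submodule.finrank_mono h2
  rw [h1] at h3
  exact h3

/-- The squared distance on `Y` agrees with a matrix of rank at most `adim Y + 2`. -/
lemma exists_RK {d : ℕ} (Y : Finset (EuclideanSpace ℝ (Fin d))) :
    ∃ M' : EuclideanSpace ℝ (Fin d) → EuclideanSpace ℝ (Fin d) → ℝ, RK (adim Y + 2) M' ∧
      ∀ a ∈ Y, ∀ b ∈ Y, ‖a - b‖ ^ 2 = M' a b := by
  rcases Y.eq_empty_or_nonempty with hY | ⟨p, hp⟩
  · refine ⟨fun _ _ => 0, ⟨fun _ _ => 0, fun _ _ => 0, by simp⟩, by simp [hY]⟩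
  set V := vectorSpan ℝ (Y : Set (EuclideanSpace ℝ (Fin d))) with hV
  set e : OrthonormalBasis (Fin (Module.finrank ℝ V)) ℝ V := stdOrthonormalBasis ℝ V with he
  have hRK1 : RK (adim Y) (fun a b : EuclideanSpace ℝ (Fin d) =>
      ∑ i : Fin (Module.finrank ℝ V), (-2 * inner ℝ (a - p) (e i : EuclideanSpace ℝ (Fin d))) *
        inner ℝ (e i : EuclideanSpace ℝ (Fin d)) (b - p)) :=
    ⟨fun a i => -2 * inner ℝ (a - p) (e i : EuclideanSpace ℝ (Fin d)),
      fun i b => inner ℝ (e i : EuclideanSpace ℝ (Fin d)) (b - p), fun a b => rfl⟩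
  refine ⟨_, RK.add hRK1 (RK.sep (fun a => ‖a - p‖ ^ 2) (fun b => ‖b - p‖ ^ 2)), ?_⟩
  intro a ha b hb
  have ha' : a - p ∈ V := vsub_mem_vectorSpan ℝ (by exact_mod_cast ha) (by exact_mod_cast hp)
  have hb' : b - p ∈ V := vsub_mem_vectorSpan ℝ (by exact_mod_cast hb) (by exact_mod_cast hp)
  have h1 := OrthonormalBasis.sum_inner_mul_inner e (⟨a - p, ha'⟩ : V) (⟨b - p, hb'⟩ : V)
  simp only [Submodule.coe_inner] at h1
  have h2 : ‖a - b‖ ^ 2 = ‖a - p‖ ^ 2 - 2 * inner ℝ (a - p) (b - p) + ‖b - p‖ ^ 2 := by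
    rw [← norm_sub_sq_real]
    congr 2
    abel
  rw [h2, ← h1]
  have h3 : ∑ i : Fin (Module.finrank ℝ V), (-2 * inner ℝ (a - p) (e i : EuclideanSpace ℝ (Fin d))) *
        inner ℝ (e i : EuclideanSpace ℝ (Fin d)) (b - p) =
      -2 * ∑ i : Fin (Module.finrank ℝ V), inner ℝ (a - p) (e i : EuclideanSpace ℝ (Fin d)) *
        inner ℝ (e i : EuclideanSpace ℝ (Fin d)) (b - p) := by
    rw [Finset.mul_sum]
    apply Finset.sum_congr rfl
    intro i _
    ring
  rw [h3]
  ring

end Pool.Agent.Helper433
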