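import Mathlib
import Pool.Agent.Helper433.Ndp

set_option autoImplicit false

namespace Pool.Agent.Helper433

open Finset

/-- If each fibre of `f` on the `k`-th set is small then few tuples have `f (b k) = G b`, where
`G` does not depend on the `k`-th coordinate. -/
lemma fibre_count {α : Type} [DecidableEq α] {m : ℕ} (A : Fin m → Finset α) (k : Fin m)
    (f : α → ℝ) (G : (Fin m → α) → ℝ) (hG : ∀ b y, G (Function.update b k y) = G b)
    (δ : ℝ) (hδ : ∀ v : ℝ, (((A k).filter (fun y => f y = v)).card : ℝ) ≤ δ * (A k).card) :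
    (((Fintype.piFinset A).filter (fun b => f (b k) = G b)).card : ℝ) ≤
      δ * ∏ j, ((A j).card : ℝ) := by
  classical
  rcases (A k).eq_empty_or_nonempty with hk | hk
  · have h1 : Fintype.piFinset A = ∅ := by
      rw [Finset.eq_empty_iff_forall_notMem]
      intro b hb
      have := (Fintype.mem_piFinset.mp hb) k
      rw [hk] at this
      simp at this
    have h2 : ∏ j, ((A j).card : ℝ) = 0 := by
      apply Finset.prod_eq_zero (Finset.mem_univ k)
      simp [hk]
    rw [h1, h2]
    simp
  have hkc : (0 : ℝ) < (A k).card := by exact_mod_cast Finset.card_pos.mpr hk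
  -- double counting
  have key : ((A k).card : ℝ) * (((Fintype.piFinset A).filter (fun b => f (b k) = G b)).card : ℝ) =
      ∑ b ∈ Fintype.piFinset A, ∑ y ∈ A k, (if f y = G b then (1 : ℝ) else 0) := by
    have h1 : ((A k).card : ℝ) * (((Fintype.piFinset A).filter (fun b => f (b k) = G b)).card : ℝ) =
        ∑ b ∈ Fintype.piFinset A, ∑ _y ∈ A k, (if f (b k) = G b then (1 : ℝ) else 0) := by
      simp only [Finset.sum_const, nsmul_eq_mul]
      rw [← Finset.mul_sum, Finset.sum_boole]
    rw [h1, ← Finset.sum_product', ← Finset.sum_product']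
    refine Finset.sum_nbij' (fun p => (Function.update p.1 k p.2, p.1 k))
      (fun p => (Function.update p.1 k p.2, p.1 k)) ?_ ?_ ?_ ?_ ?_
    · rintro ⟨b, y⟩ hp
      rw [Finset.mem_product] at hp ⊢
      obtain ⟨hb, hy⟩ := hp
      rw [Fintype.mem_piFinset] at hb
      refine ⟨?_, hb k⟩
      rw [Fintype.mem_piFinset]
      intro j
      by_cases hj : j = k
      · subst hj
        simpa using hy
      · simp only [Function.update_of_ne hj]
        exact hb j
    · rintro ⟨b, y⟩ hp
      rw [Finset.mem_product] at hp ⊢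
      obtain ⟨hb, hy⟩ := hp
      rw [Fintype.mem_piFinset] at hb
      refine ⟨?_, hb k⟩
      rw [Fintype.mem_piFinset]
      intro j
      by_cases hj : j = k
      · subst hj
        simpa using hy
      · simp only [Function.update_of_ne hj]
        exact hb j
    · rintro ⟨b, y⟩ _
      simp
    · rintro ⟨b, y⟩ _
      simp
    · rintro ⟨b, y⟩ _
      simp only [hG]
  have h2 : ∑ b ∈ Fintype.piFinset A, ∑ y ∈ A k, (if f y = G b then (1 : ℝ) else 0) ≤
      ∑ _b ∈ Fintype.piFinset A, δ * (A k).card := by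
    apply Finset.sum_le_sum
    intro b _
    rw [Finset.sum_boole]
    exact hδ (G b)
  rw [← key] at h2
  rw [Finset.sum_const, nsmul_eq_mul, Fintype.card_piFinset] at h2
  push_cast at h2
  have h3 : ((A k).card : ℝ) * (((Fintype.piFinset A).filter (fun b => f (b k) = G b)).card : ℝ) ≤
      (A k).card * (δ * ∏ j, ((A j).card : ℝ)) := by
    refine h2.trans (le_of_eq ?_)
    ring
  exact le_of_mul_le_mul_left h3 hkc

/-- Good tuples: all values `M (a i) (a j)` are distinct and avoid the forbidden sets. -/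
def Good {α : Type} (M : α → α → ℝ) {m : ℕ} (Q : Fin m → α → Finset ℝ) (a : Fin m → α) : Prop :=
  (∀ i j, i ≠ j → M (a i) (a j) ∉ Q i (a i)) ∧
  (∀ i j k l, i ≠ j → k ≠ l → M (a i) (a j) = M (a k) (a l) → (i = k ∧ j = l) ∨ (i = l ∧ j = k))

lemma good_cons {α : Type} [DecidableEq α] (M : α → α → ℝ) (hsymm : ∀ a b, M a b = M b a) {m : ℕ}
    (Q : Fin (m + 1) → α → Finset ℝ) (x : α) (b : Fin m → α) (v : Fin m → ℝ)
    (Q' : Fin m → α → Finset ℝ)
    (hQ' : ∀ k y, Q' k y = insert (M x y) (Q k.succ y ∪ Finset.univ.image v))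
    (h1 : Good M Q' b)
    (h2 : ∀ k, M x (b k) ∉ Q 0 x ∧ M x (b k) ∉ Q k.succ (b k))
    (h3 : ∀ k l, k ≠ l → M x (b k) ≠ M x (b l))
    (h4 : ∀ i j k, i ≠ j → k ≠ i → k ≠ j → M (b i) (b j) = M x (b k) → M x (b k) = v k) :
    Good M Q (Fin.cons x b : Fin (m + 1) → α) := by
  have h5 : ∀ i j k, i ≠ j → M (b i) (b j) ≠ M x (b k) := by
    intro i j k hij heq
    by_cases hki : k = i
    · subst hki
      apply h1.1 k j hij
      rw [hQ', heq]
      exact Finset.mem_insert_self _ _
    by_cases hkj : k = j
    · subst hkj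
      apply h1.1 k i (Ne.symm hij)
      rw [hQ', hsymm (b k) (b i), heq]
      exact Finset.mem_insert_self _ _
    have h6 := h4 i j k hij hki hkj heq
    apply h1.1 i j hij
    rw [hQ', heq, h6]
    apply Finset.mem_insert_of_mem
    apply Finset.mem_union_right
    exact Finset.mem_image_of_mem v (Finset.mem_univ k)
  constructor
  · intro i j hij
    refine Fin.cases (motive := fun i => i ≠ j → M ((Fin.cons x b : Fin (m + 1) → α) i)
      ((Fin.cons x b : Fin (m + 1) → α) j) ∉ Q i ((Fin.cons x b : Fin (m + 1) → α) i)) ?_ ?_ i hij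
    · refine Fin.cases (motive := fun j => (0 : Fin (m + 1)) ≠ j →
        M ((Fin.cons x b : Fin (m + 1) → α) 0)
        ((Fin.cons x b : Fin (m + 1) → α) j) ∉ Q 0 ((Fin.cons x b : Fin (m + 1) → α) 0)) ?_ ?_ j
      · intro h
        exact absurd rfl h
      · intro j _
        simp only [Fin.cons_zero, Fin.cons_succ]
        exact (h2 j).1
    · intro i
      refine Fin.cases (motive := fun j => i.succ ≠ j →
        M ((Fin.cons x b : Fin (m + 1) → α) i.succ)
        ((Fin.cons x b : Fin (m + 1) → α) j) ∉
          Q i.succ ((Fin.cons x b : Fin (m + 1) → α) i.succ)) ?_ ?_ j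
      · intro _
        simp only [Fin.cons_zero, Fin.cons_succ]
        rw [hsymm]
        exact (h2 i).2
      · intro j hne
        simp only [Fin.cons_succ]
        have hne' : i ≠ j := fun h => hne (by rw [h])
        intro hmem
        apply h1.1 i j hne'
        rw [hQ']
        apply Finset.mem_insert_of_mem
        exact Finset.mem_union_left _ hmem
  · intro i j k l
    rcases Fin.eq_zero_or_eq_succ i with rfl | ⟨i, rfl⟩ <;>
    rcases Fin.eq_zero_or_eq_succ j with rfl | ⟨j, rfl⟩ <;>
    rcases Fin.eq_zero_or_eq_succ k with rfl | ⟨k, rfl⟩ <;>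
    rcases Fin.eq_zero_or_eq_succ l with rfl | ⟨l, rfl⟩ <;>
    simp only [Fin.cons_zero, Fin.cons_succ, ne_eq, not_true_eq_false, false_implies, implies_true,
      Fin.succ_inj]
    · -- 0 j 0 l
      intro _ _ h
      by_cases hjl : j = l
      · left; exact ⟨trivial, hjl⟩
      · exact absurd h (h3 j l hjl)
    · -- 0 j k 0
      intro _ _ h
      by_cases hjk : j = k
      · right; exact ⟨trivial, hjk⟩
      · rw [hsymm (b k) x] at h
        exact absurd h (h3 j k hjk)
    · -- 0 j k l
      intro _ hkl h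
      exact absurd h.symm (h5 k l j hkl)
    · -- i 0 0 l
      intro _ _ h
      by_cases hil : i = l
      · right; exact ⟨hil, trivial⟩
      · rw [hsymm (b i) x] at h
        exact absurd h (h3 i l hil)
    · -- i 0 k 0
      intro _ _ h
      by_cases hik : i = k
      · left; exact ⟨hik, trivial⟩
      · rw [hsymm (b i) x, hsymm (b k) x] at h
        exact absurd h (h3 i k hik)
    · -- i 0 k l
      intro _ hkl h
      rw [hsymm (b i) x] at h
      exact absurd h.symm (h5 k l i hkl)
    · -- i j 0 l
      intro hij _ h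
      exact absurd h (h5 i j l hij)
    · -- i j k 0
      intro hij _ h
      rw [hsymm (b k) x] at h
      exact absurd h (h5 i j k hij)
    · -- i j k l
      intro hij hkl h
      exact h1.2 i j k l hij hkl h

lemma exists_distinct {m : ℕ} (T : Fin m → Finset ℝ) :
    ∃ v : Fin m → ℝ, Function.Injective v ∧ ∀ k, m ≤ (T k).card → v k ∈ T k := by
  classical
  set t : Fin m → Finset ℝ := fun k => if m ≤ (T k).card then T k else
    (Finset.range m).image (fun n : ℕ => (n : ℝ)) with ht
  have hcard : ∀ k, m ≤ (t k).card := by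
    intro k
    by_cases h : m ≤ (T k).card
    · simp only [ht, if_pos h]; exact h
    · simp only [ht, if_neg h]
      rw [Finset.card_image_of_injective _ Nat.cast_injective, Finset.card_range]
  have hall := (Finset.all_card_le_biUnion_card_iff_exists_injective t).mp (by
    intro s
    rcases s.eq_empty_or_nonempty with hs | ⟨k, hk⟩
    · simp [hs]
    · calc s.card ≤ Fintype.card (Fin m) := Finset.card_le_univ s
        _ = m := Fintype.card_fin m
        _ ≤ (t k).card := hcard k
        _ ≤ (s.biUnion t).card := Finset.card_le_card (Finset.subset_biUnion_of_mem t hk))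
  obtain ⟨v, hv, hmem⟩ := hall
  refine ⟨v, hv, fun k hk => ?_⟩
  have := hmem k
  simp only [ht, if_pos hk] at this
  exact this

open Classical in
/-- The popular values. -/
noncomputable def atoms {α : Type} (M : α → α → ℝ) (Q0 : Finset ℝ) (Qk : α → Finset ℝ)
    (lam : ℝ) (x : α) (Ak : Finset α) : Finset ℝ :=
  ((Ak.filter (fun y => M x y ∉ Q0 ∧ M x y ∉ Qk y)).image (M x)).filter
    (fun v => lam * Ak.card ≤
      (((Ak.filter (fun y => M x y ∉ Q0 ∧ M x y ∉ Qk y)).filter (fun y => M x y = v)).card : ℝ))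

lemma step_fixed {α : Type} [DecidableEq α] (M : α → α → ℝ) {m : ℕ} (x : α) (A : Fin m → Finset α)
    (Q0 : Finset ℝ) (Qs : Fin m → α → Finset ℝ) (lam η : ℝ) (hlam : 0 < lam) (hη : 0 < η)
    (hle : lam ≤ η)
    (hfine : ∀ k, (atoms M Q0 (Qs k) lam x (A k)).card < m →
      η * (A k).card ≤ (((A k).filter (fun y => M x y ∉ Q0 ∪ atoms M Q0 (Qs k) lam x (A k) ∧
        M x y ∉ Qs k y)).card : ℝ)) :
    ∃ (v : Fin m → ℝ) (A' : Fin m → Finset α) (I : Finset (Fin m)), Function.Injective v ∧
      (∀ k, A' k ⊆ A k) ∧ (∀ k, lam * (A k).card ≤ (A' k).card) ∧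
      (∀ k, ∀ y ∈ A' k, M x y ∉ Q0 ∧ M x y ∉ Qs k y) ∧
      (∀ k ∈ I, ∀ y ∈ A' k, M x y = v k) ∧
      (∀ k, k ∉ I → ∀ w : ℝ, (((A' k).filter (fun y => M x y = w)).card : ℝ) ≤
        lam / η * (A' k).card) := by
  classical
  obtain ⟨v, hv, hvm⟩ := exists_distinct (fun k => atoms M Q0 (Qs k) lam x (A k))
  set I : Finset (Fin m) := Finset.univ.filter
    (fun k => m ≤ (atoms M Q0 (Qs k) lam x (A k)).card) with hI
  have hmemI : ∀ k, k ∈ I ↔ m ≤ (atoms M Q0 (Qs k) lam x (A k)).card := by
    intro k
    rw [hI, Finset.mem_filter]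
    simp
  set A' : Fin m → Finset α := fun k => if k ∈ I then
    ((A k).filter (fun y => M x y ∉ Q0 ∧ M x y ∉ Qs k y)).filter (fun y => M x y = v k) else
    (A k).filter (fun y => M x y ∉ Q0 ∪ atoms M Q0 (Qs k) lam x (A k) ∧ M x y ∉ Qs k y) with hA'
  have hA'I : ∀ k ∈ I, A' k = ((A k).filter (fun y => M x y ∉ Q0 ∧ M x y ∉ Qs k y)).filter
      (fun y => M x y = v k) := by
    intro k hk
    simp only [hA', if_pos hk]
  have hA'n : ∀ k, k ∉ I → A' k = (A k).filter (fun y => M x y ∉ Q0 ∪ atoms M Q0 (Qs k) lam x (A k) ∧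
      M x y ∉ Qs k y) := by
    intro k hk
    simp only [hA', if_neg hk]
  refine ⟨v, A', I, hv, ?_, ?_, ?_, ?_, ?_⟩
  · intro k
    by_cases hk : k ∈ I
    · rw [hA'I k hk]
      exact (Finset.filter_subset _ _).trans (Finset.filter_subset _ _)
    · rw [hA'n k hk]
      exact Finset.filter_subset _ _
  · intro k
    by_cases hk : k ∈ I
    · rw [hA'I k hk]
      have h1 := hvm k ((hmemI k).mp hk)
      unfold atoms at h1
      rw [Finset.mem_filter] at h1
      convert h1.2
    · rw [hA'n k hk]
      have h1 := hfine k (by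
        rw [hmemI] at hk
        omega)
      refine le_trans ?_ (h1.trans (le_of_eq ?_))
      · exact mul_le_mul_of_nonneg_right hle (by positivity)
      · congr 1
  · intro k y hy
    by_cases hk : k ∈ I
    · rw [hA'I k hk, Finset.mem_filter, Finset.mem_filter] at hy
      exact hy.1.2
    · rw [hA'n k hk, Finset.mem_filter] at hy
      refine ⟨fun h => hy.2.1 (Finset.mem_union_left _ h), hy.2.2⟩
  · intro k hk y hy
    rw [hA'I k hk, Finset.mem_filter] at hy
    exact hy.2
  · intro k hk w
    have h1 := hfine k (by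
        rw [hmemI] at hk
        omega)
    have h2 : η * (A k).card ≤ ((A' k).card : ℝ) := by
      rw [hA'n k hk]
      refine h1.trans (le_of_eq ?_)
      congr 1
    have h3 : (((A' k).filter (fun y => M x y = w)).card : ℝ) ≤ lam * (A k).card := by
      by_contra hcon
      push Not at hcon
      have hpos : (0 : ℝ) < (((A' k).filter (fun y => M x y = w)).card : ℝ) :=
        lt_of_le_of_lt (by positivity) hcon
      have hne : ((A' k).filter (fun y => M x y = w)).Nonempty :=
        Finset.card_pos.mp (by exact_mod_cast hpos)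
      obtain ⟨y, hy⟩ := hne
      rw [Finset.mem_filter, hA'n k hk, Finset.mem_filter] at hy
      obtain ⟨⟨hyA, hy1, hy2⟩, hyw⟩ := hy
      have hy3 : M x y ∉ Q0 := fun h => hy1 (Finset.mem_union_left _ h)
      have hy4 : w ∉ atoms M Q0 (Qs k) lam x (A k) := by
        rw [← hyw]
        exact fun h => hy1 (Finset.mem_union_right _ h)
      apply hy4
      unfold atoms
      rw [Finset.mem_filter]
      refine ⟨?_, ?_⟩
      · rw [Finset.mem_image]
        refine ⟨y, ?_, hyw⟩
        rw [Finset.mem_filter]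
        exact ⟨hyA, hy3, hy2⟩
      · refine hcon.le.trans ?_
        have hsub : (A' k).filter (fun y => M x y = w) ⊆
            ((A k).filter (fun y => M x y ∉ Q0 ∧ M x y ∉ Qs k y)).filter (fun y => M x y = w) := by
          intro z hz
          rw [Finset.mem_filter, hA'n k hk, Finset.mem_filter] at hz
          obtain ⟨⟨hzA, hz1, hz2⟩, hzw⟩ := hz
          rw [Finset.mem_filter, Finset.mem_filter]
          exact ⟨⟨hzA, fun h => hz1 (Finset.mem_union_left _ h), hz2⟩, hzw⟩
        have := Finset.card_le_card hsub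
        have h5 : (((A' k).filter (fun y => M x y = w)).card : ℝ) ≤
          ((((A k).filter (fun y => M x y ∉ Q0 ∧ M x y ∉ Qs k y)).filter
            (fun y => M x y = w)).card : ℝ) := by exact_mod_cast this
        refine h5.trans (le_of_eq ?_)
        congr 1
    have h4 : lam * (A k).card ≤ lam / η * (A' k).card := by
      calc lam * (A k).card = lam / η * (η * (A k).card) := by field_simp
        _ ≤ lam / η * (A' k).card := mul_le_mul_of_nonneg_left h2 (by positivity)
    exact h3.trans h4

end Pool.Agent.Helper433
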