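import Mathlib
import Pool.Agent.Helper433.Sel

set_option autoImplicit false

namespace Pool.Agent.Helper433

open Finset

/-- Counting good extensions of a fixed first point. -/
lemma step_count {α : Type} [DecidableEq α] (M : α → α → ℝ) (hsymm : ∀ a b, M a b = M b a)
    {m : ℕ} (x : α) (A : Fin m → Finset α) (Q : Fin (m + 1) → α → Finset ℝ) (δ ν : ℝ)
    (v : Fin m → ℝ) (hv : Function.Injective v) (A' : Fin m → Finset α) (I : Finset (Fin m))
    (hA' : ∀ k, A' k ⊆ A k)
    (hav : ∀ k, ∀ y ∈ A' k, M x y ∉ Q 0 x ∧ M x y ∉ Q k.succ y)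
    (hI : ∀ k ∈ I, ∀ y ∈ A' k, M x y = v k)
    (hn : ∀ k, k ∉ I → ∀ w : ℝ, (((A' k).filter (fun y => M x y = w)).card : ℝ) ≤
        δ * (A' k).card) (hδ : 0 ≤ δ)
    (F : Finset (Fin m → α))
    (hF : ∀ b ∈ F, (∀ k, b k ∈ A' k) ∧
      Good M (fun k y => insert (M x y) (Q k.succ y ∪ Finset.univ.image v)) b)
    (hFc : ν * ∏ k, ((A' k).card : ℝ) ≤ F.card) :
    ∃ F' : Finset (Fin m → α), (∀ b ∈ F', (∀ k, b k ∈ A k) ∧
      Good M Q (Fin.cons x b : Fin (m + 1) → α)) ∧
      (ν - m * (m + 1) ^ 2 * δ) * ∏ k, ((A' k).card : ℝ) ≤ F'.card := by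
  classical
  set J : Finset (Fin m × Fin (m + 1) × Fin (m + 1)) := Finset.univ.filter
    (fun p => p.1 ∉ I ∧ p.2.1 ≠ p.1.succ ∧ p.2.2 ≠ p.1.succ) with hJ
  set Cc : Fin m × Fin (m + 1) × Fin (m + 1) → Finset (Fin m → α) := fun p =>
    (Fintype.piFinset A').filter (fun b => M x (b p.1) =
      M ((Fin.cons x b : Fin (m + 1) → α) p.2.1) ((Fin.cons x b : Fin (m + 1) → α) p.2.2)) with hCc
  have hprod : (0 : ℝ) ≤ ∏ k, ((A' k).card : ℝ) := Finset.prod_nonneg fun _ _ => by positivity
  generalize hPr : ∏ k, ((A' k).card : ℝ) = Pr at hprod hFc ⊢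
  have hCcard : ∀ p ∈ J, ((Cc p).card : ℝ) ≤ δ * Pr := by
    rintro ⟨k, i, j⟩ hp
    rw [hJ, Finset.mem_filter] at hp
    obtain ⟨-, hkI, hi, hj⟩ := hp
    have := fibre_count A' k (M x) (fun b => M ((Fin.cons x b : Fin (m + 1) → α) i)
      ((Fin.cons x b : Fin (m + 1) → α) j)) (by
        intro b y
        rw [Fin.cons_update, Function.update_of_ne hi, Function.update_of_ne hj]) δ (hn k hkI)
    rw [← hPr]
    convert this
  have hJcard : (J.card : ℝ) ≤ m * (m + 1) ^ 2 := by
    have h1 : J.card ≤ m * ((m + 1) * (m + 1)) := by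
      calc J.card ≤ (Finset.univ : Finset (Fin m × Fin (m + 1) × Fin (m + 1))).card :=
            Finset.card_le_card (Finset.filter_subset _ _)
        _ = m * ((m + 1) * (m + 1)) := by simp
    have h2 : (J.card : ℝ) ≤ ((m * ((m + 1) * (m + 1)) : ℕ) : ℝ) := by exact_mod_cast h1
    refine h2.trans (le_of_eq ?_)
    push_cast
    ring
  have hUcard : ((J.biUnion Cc).card : ℝ) ≤ m * (m + 1) ^ 2 * δ * Pr := by
    calc ((J.biUnion Cc).card : ℝ) ≤ ((∑ p ∈ J, (Cc p).card : ℕ) : ℝ) := by
          exact_mod_cast Finset.card_biUnion_le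
      _ = ∑ p ∈ J, ((Cc p).card : ℝ) := by push_cast; rfl
      _ ≤ ∑ _p ∈ J, δ * Pr := Finset.sum_le_sum hCcard
      _ = J.card * (δ * Pr) := by rw [Finset.sum_const, nsmul_eq_mul]
      _ ≤ (m * (m + 1) ^ 2) * (δ * Pr) :=
          mul_le_mul_of_nonneg_right hJcard (by positivity)
      _ = _ := by ring
  refine ⟨F \ J.biUnion Cc, ?_, ?_⟩
  · intro b hb
    rw [Finset.mem_sdiff] at hb
    obtain ⟨hbF, hbC⟩ := hb
    obtain ⟨hbA, hbG⟩ := hF b hbF
    have hbA' : b ∈ Fintype.piFinset A' := Fintype.mem_piFinset.mpr hbA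
    have hnc : ∀ k i j, k ∉ I → i ≠ k.succ → j ≠ k.succ → M x (b k) ≠
        M ((Fin.cons x b : Fin (m + 1) → α) i) ((Fin.cons x b : Fin (m + 1) → α) j) := by
      intro k i j hk hi hj heq
      apply hbC
      rw [Finset.mem_biUnion]
      refine ⟨(k, i, j), ?_, ?_⟩
      · rw [hJ, Finset.mem_filter]
        exact ⟨Finset.mem_univ _, hk, hi, hj⟩
      · simp only [hCc]
        rw [Finset.mem_filter]
        exact ⟨hbA', heq⟩
    refine ⟨fun k => hA' k (hbA k), ?_⟩
    refine good_cons M hsymm Q x b v _ (fun k y => rfl) hbG ?_ ?_ ?_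
    · intro k
      exact hav k (b k) (hbA k)
    · intro k l hkl
      by_cases hk : k ∈ I
      · by_cases hl : l ∈ I
        · rw [hI k hk _ (hbA k), hI l hl _ (hbA l)]
          exact fun h => hkl (hv h)
        · have := hnc l 0 k.succ hl (Fin.succ_ne_zero l).symm (fun h => hkl (Fin.succ_injective _ h))
          simp only [Fin.cons_zero, Fin.cons_succ] at this
          exact this.symm
      · have := hnc k 0 l.succ hk (Fin.succ_ne_zero k).symm
          (fun h => hkl (Fin.succ_injective _ h).symm)
        simp only [Fin.cons_zero, Fin.cons_succ] at this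
        exact this
    · intro i j k hij hki hkj heq
      by_cases hk : k ∈ I
      · exact hI k hk _ (hbA k)
      · exfalso
        have := hnc k i.succ j.succ hk (fun h => hki (Fin.succ_injective _ h).symm)
          (fun h => hkj (Fin.succ_injective _ h).symm)
        simp only [Fin.cons_succ] at this
        exact this heq.symm
  · have h1 : (F.card : ℝ) ≤ ((F \ J.biUnion Cc).card : ℝ) + (J.biUnion Cc).card := by
      have : F.card ≤ (F \ J.biUnion Cc).card + (J.biUnion Cc).card := by
        have h := Finset.card_sdiff_add_card F (J.biUnion Cc)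
        have h' : F.card ≤ (F ∪ J.biUnion Cc).card := Finset.card_le_card Finset.subset_union_left
        omega
      exact_mod_cast this
    nlinarith

/-- Selection theorem. -/
theorem sel (m : ℕ) : ∃ e : ℕ, ∀ (α : Type) (Y : Finset α) (M : α → α → ℝ),
    (∀ a b, M a b = M b a) → ∀ (S N : ℕ) (η μ : ℝ), 0 < η → η ≤ 1 / 2 → 2 * m ≤ N →
    NDP M Y S N η μ → ∀ s : ℕ, s + (m + 1) ^ 2 ≤ S →
    ∀ (A : Fin m → Finset α) (Q : Fin m → α → Finset ℝ), (∀ k, A k ⊆ Y) →
      (∀ k, μ * Y.card ≤ η ^ e * (A k).card) → (∀ k x, (Q k x).card ≤ s) →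
      ∃ F : Finset (Fin m → α), (∀ a ∈ F, (∀ k, a k ∈ A k) ∧ Good M Q a) ∧
        η ^ e * ∏ k, ((A k).card : ℝ) ≤ F.card := by
  classical
  induction m with
  | zero =>
    refine ⟨0, ?_⟩
    intro α Y M hsymm S N η μ hη hη2 hN hNDP s hs A Q hA hAc hQ
    refine ⟨Finset.univ, ?_, ?_⟩
    · intro a _
      refine ⟨fun k => k.elim0, ?_, ?_⟩
      · intro i
        exact i.elim0
      · intro i
        exact i.elim0
    · simp
  | succ m ih =>
    obtain ⟨e, he⟩ := ih
    set t : ℕ := 2 * (m + 1) ^ 3 with ht
    set e' : ℕ := e + 1 + t with he'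
    refine ⟨e + (m + 1) * e' + 2, ?_⟩
    intro α Y M hsymm S N η μ hη hη2 hN hNDP s hs A Q hA hAc hQ
    have hη1 : η ≤ 1 := by linarith
    set lam : ℝ := η ^ e' with hlam
    have hlampos : 0 < lam := by positivity
    have hlamη : lam ≤ η := by
      rw [hlam]
      calc η ^ e' ≤ η ^ 1 := pow_le_pow_of_le_one hη.le hη1 (by omega)
        _ = η := pow_one η
    have hbig : ∀ k, μ * Y.card ≤ ((A k).card : ℝ) := by
      intro k
      refine (hAc k).trans ?_
      have : η ^ (e + (m + 1) * e' + 2) ≤ 1 := pow_le_one₀ hη.le hη1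
      have h0 : (0 : ℝ) ≤ (A k).card := by positivity
      nlinarith
    -- the forbidden sets used for the rows
    set R : Fin m → α → Finset ℝ := fun k x =>
      if (atoms M (Q 0 x) (Q k.succ) lam x (A k.succ)).card < m then
        Q 0 x ∪ atoms M (Q 0 x) (Q k.succ) lam x (A k.succ) else Q 0 x with hR
    have hRcard : ∀ k x, (R k x).card ≤ S := by
      intro k x
      have hsS : s + m ≤ S := by nlinarith
      by_cases h : (atoms M (Q 0 x) (Q k.succ) lam x (A k.succ)).card < m
      · simp only [hR, if_pos h]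
        calc _ ≤ (Q 0 x).card + (atoms M (Q 0 x) (Q k.succ) lam x (A k.succ)).card :=
              Finset.card_union_le _ _
          _ ≤ s + m := add_le_add (hQ 0 x) h.le
          _ ≤ S := hsS
      · simp only [hR, if_neg h]
        exact (hQ 0 x).trans (by omega)
    set Bad : Fin m → Finset α := fun k => (A 0).filter (fun x =>
      ((((A k.succ).filter (fun y => M x y ∉ R k x ∧ M x y ∉ Q k.succ y)).card : ℝ) <
        η * (A k.succ).card)) with hBad
    have hBadc : ∀ k, (N : ℝ) * (Bad k).card ≤ (A 0).card := by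
      intro k
      refine hNDP (A 0) (hA 0) (A k.succ) (hA _) (hbig 0) (hbig _) (R k) (Q k.succ) (hRcard k)
        (fun b => (hQ _ b).trans (by nlinarith)) (Bad k) (Finset.filter_subset _ _) ?_
      intro a ha
      simp only [hBad] at ha
      rw [Finset.mem_filter] at ha
      convert ha.2
    set Fine : Finset α := A 0 \ Finset.univ.biUnion Bad with hFine
    have hFinec : ((A 0).card : ℝ) / 2 ≤ Fine.card := by
      have h1 : ((Finset.univ.biUnion Bad).card : ℝ) ≤ ∑ k, ((Bad k).card : ℝ) := by
        have := Finset.card_biUnion_le (s := (Finset.univ : Finset (Fin m))) (t := Bad)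
        exact_mod_cast this
      have hNpos : (0 : ℝ) < N := by
        have : 0 < N := by omega
        exact_mod_cast this
      have h2 : (N : ℝ) * ∑ k, ((Bad k).card : ℝ) ≤ m * (A 0).card := by
        rw [Finset.mul_sum]
        calc ∑ k, (N : ℝ) * ((Bad k).card : ℝ) ≤ ∑ _k : Fin m, ((A 0).card : ℝ) :=
              Finset.sum_le_sum (fun k _ => hBadc k)
          _ = m * (A 0).card := by simp
      have h3 : (2 : ℝ) * m ≤ N := by
        have : 2 * m ≤ N := by omega
        exact_mod_cast this
      have h4 : ((A 0).card : ℝ) ≤ Fine.card + (Finset.univ.biUnion Bad).card := by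
        have : (A 0).card ≤ Fine.card + (Finset.univ.biUnion Bad).card := by
          have h := Finset.card_sdiff_add_card (A 0) (Finset.univ.biUnion Bad)
          have h' : (A 0).card ≤ (A 0 ∪ Finset.univ.biUnion Bad).card :=
            Finset.card_le_card Finset.subset_union_left
          rw [hFine]
          omega
        exact_mod_cast this
      have h5 : ∑ k, ((Bad k).card : ℝ) ≤ (A 0).card / 2 := by
        have h6 : (N : ℝ) * ∑ k, ((Bad k).card : ℝ) ≤ N * ((A 0).card / 2) := by
          refine h2.trans ?_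
          have h0 : (0 : ℝ) ≤ (A 0).card := by positivity
          nlinarith
        exact le_of_mul_le_mul_left h6 hNpos
      linarith
    have hprod0 : (0 : ℝ) ≤ ∏ k : Fin m, ((A k.succ).card : ℝ) :=
      Finset.prod_nonneg fun _ _ => by positivity
    -- for each fine point, many good extensions
    have hext : ∀ x ∈ Fine, ∃ F' : Finset (Fin m → α), (∀ b ∈ F', (∀ k, b k ∈ A k.succ) ∧
        Good M Q (Fin.cons x b : Fin (m + 1) → α)) ∧
        η ^ e / 2 * (lam ^ m * ∏ k : Fin m, ((A k.succ).card : ℝ)) ≤ F'.card := by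
      intro x hx
      rw [hFine, Finset.mem_sdiff, Finset.mem_biUnion] at hx
      obtain ⟨hx0, hxB⟩ := hx
      push Not at hxB
      obtain ⟨v, A', I, hv, hA'A, hA'c, hav, hI, hn⟩ := step_fixed M x (fun k => A k.succ) (Q 0 x)
        (fun k => Q k.succ) lam η hlampos hη hlamη (by
          intro k hk
          have h1 := hxB k (Finset.mem_univ k)
          simp only [hBad, Finset.mem_filter, not_and, not_lt] at h1
          have h2 := h1 hx0
          have hRk : R k x = Q 0 x ∪ atoms M (Q 0 x) (Q k.succ) lam x (A k.succ) := by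
            simp only [hR]
            rw [if_pos hk]
          rw [hRk] at h2
          convert h2)
      have hδ0 : 0 ≤ lam / η := by positivity
      obtain ⟨F, hF, hFc⟩ := he α Y M hsymm S N η μ hη hη2 (by omega) hNDP (s + 1 + m)
        (by nlinarith) A' (fun k y => insert (M x y) (Q k.succ y ∪ Finset.univ.image v))
        (fun k => (hA'A k).trans (hA _)) (by
          intro k
          have h1 := hAc k.succ
          have h2 := hA'c k
          calc μ * Y.card ≤ η ^ (e + (m + 1) * e' + 2) * (A k.succ).card := h1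
            _ ≤ η ^ (e + e') * (A k.succ).card := by
                apply mul_le_mul_of_nonneg_right _ (by positivity)
                apply pow_le_pow_of_le_one hη.le hη1
                nlinarith
            _ = η ^ e * (lam * (A k.succ).card) := by rw [hlam, pow_add]; ring
            _ ≤ η ^ e * (A' k).card := mul_le_mul_of_nonneg_left h2 (by positivity))
        (by
          intro k y
          calc _ ≤ (Q k.succ y ∪ Finset.univ.image v).card + 1 := Finset.card_insert_le _ _
            _ ≤ (Q k.succ y).card + (Finset.univ.image v).card + 1 :=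
                Nat.add_le_add_right (Finset.card_union_le _ _) 1
            _ ≤ s + m + 1 := by
                have h1 := hQ k.succ y
                have h2 : (Finset.univ.image v).card ≤ m := by
                  calc _ ≤ (Finset.univ : Finset (Fin m)).card := Finset.card_image_le
                    _ = m := by simp
                omega
            _ = s + 1 + m := by ring)
      obtain ⟨F', hF', hF'c⟩ := step_count M hsymm x (fun k => A k.succ) Q (lam / η) (η ^ e) v hv A'
        I hA'A hav hI hn hδ0 F hF hFc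
      refine ⟨F', hF', ?_⟩
      refine le_trans ?_ hF'c
      have h1 : lam ^ m * ∏ k : Fin m, ((A k.succ).card : ℝ) ≤ ∏ k, ((A' k).card : ℝ) := by
        calc lam ^ m * ∏ k : Fin m, ((A k.succ).card : ℝ) =
              ∏ k : Fin m, lam * ((A k.succ).card : ℝ) := by
              rw [Finset.prod_mul_distrib]
              simp
          _ ≤ ∏ k, ((A' k).card : ℝ) :=
              Finset.prod_le_prod (fun _ _ => by positivity) (fun k _ => hA'c k)
      have h2 : η ^ e / 2 ≤ η ^ e - m * (m + 1) ^ 2 * (lam / η) := by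
        have h3 : lam / η = η ^ e * η ^ t := by
          rw [hlam, he', pow_add, pow_add, pow_one]
          field_simp
        have h4 : (m : ℝ) * (m + 1) ^ 2 * η ^ t ≤ 1 / 2 := by
          have h5 : η ^ t ≤ (1 / 2) ^ t := pow_le_pow_left₀ hη.le hη2 t
          have h6 : ((2 : ℝ) ^ t) ≥ t := by
            have : t < 2 ^ t := Nat.lt_two_pow_self
            exact_mod_cast this.le
          have h7 : (t : ℝ) = 2 * (m + 1) ^ 3 := by
            rw [ht]
            push_cast
            ring
          have h8 : (1 / 2 : ℝ) ^ t ≤ 1 / (2 * (m + 1) ^ 3) := by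
            rw [div_pow, one_pow]
            apply one_div_le_one_div_of_le (by positivity)
            rw [← h7]
            exact h6
          calc (m : ℝ) * (m + 1) ^ 2 * η ^ t ≤ (m + 1) * (m + 1) ^ 2 * (1 / (2 * (m + 1) ^ 3)) := by
                apply mul_le_mul _ (h5.trans h8) (by positivity) (by positivity)
                apply mul_le_mul_of_nonneg_right _ (by positivity)
                linarith
            _ = 1 / 2 := by field_simp
        rw [h3]
        have h9 : (0 : ℝ) < η ^ e := by positivity
        nlinarith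
      calc η ^ e / 2 * (lam ^ m * ∏ k : Fin m, ((A k.succ).card : ℝ)) ≤
            η ^ e / 2 * ∏ k, ((A' k).card : ℝ) := mul_le_mul_of_nonneg_left h1 (by positivity)
        _ ≤ (η ^ e - m * (m + 1) ^ 2 * (lam / η)) * ∏ k, ((A' k).card : ℝ) :=
            mul_le_mul_of_nonneg_right h2 (Finset.prod_nonneg fun _ _ => by positivity)
    choose! FF hFF hFFc using hext
    refine ⟨Fine.biUnion (fun x => (FF x).image (fun b => (Fin.cons x b : Fin (m + 1) → α))), ?_, ?_⟩
    · intro a ha
      rw [Finset.mem_biUnion] at ha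
      obtain ⟨x, hx, ha⟩ := ha
      rw [Finset.mem_image] at ha
      obtain ⟨b, hb, rfl⟩ := ha
      obtain ⟨h1, h2⟩ := hFF x hx b hb
      refine ⟨?_, h2⟩
      intro k
      rcases Fin.eq_zero_or_eq_succ k with rfl | ⟨k, rfl⟩
      · simp only [Fin.cons_zero]
        rw [hFine, Finset.mem_sdiff] at hx
        exact hx.1
      · simp only [Fin.cons_succ]
        exact h1 k
    · rw [Finset.card_biUnion]
      · have h1 : ∀ x ∈ Fine, (((FF x).image (fun b => (Fin.cons x b : Fin (m + 1) → α))).card : ℝ) =
            ((FF x).card : ℝ) := by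
          intro x _
          rw [Finset.card_image_of_injective _ (Fin.cons_right_injective (α := fun _ => α) x)]
        push_cast
        rw [Finset.sum_congr rfl h1]
        have h2 : ∑ x ∈ Fine, η ^ e / 2 * (lam ^ m * ∏ k : Fin m, ((A k.succ).card : ℝ)) ≤
            ∑ x ∈ Fine, ((FF x).card : ℝ) := Finset.sum_le_sum hFFc
        refine le_trans ?_ h2
        rw [Finset.sum_const, nsmul_eq_mul, Fin.prod_univ_succ]
        clear h1 h2 hFFc hFF
        generalize ∏ k : Fin m, ((A k.succ).card : ℝ) = Pr at hprod0 ⊢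
        have h3 : η ^ (e + (m + 1) * e' + 2) ≤ (1 / 2) * (η ^ e / 2 * lam ^ m) := by
          have h4 : η ^ (e + (m + 1) * e' + 2) = η ^ e * lam ^ m * (η ^ e' * η ^ 2) := by
            rw [hlam, ← pow_mul, ← pow_add, ← pow_add, ← pow_add]
            congr 1
            ring
          have h5 : η ^ e' * η ^ 2 ≤ 1 / 4 := by
            have h6 : η ^ e' ≤ 1 := pow_le_one₀ hη.le hη1
            have h7 : η ^ 2 ≤ 1 / 4 := by nlinarith
            have h8 : (0 : ℝ) ≤ η ^ 2 := by positivity
            have h9 : (0 : ℝ) ≤ η ^ e' := by positivity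
            nlinarith
          rw [h4]
          have h6 : (0 : ℝ) ≤ η ^ e * lam ^ m := by positivity
          nlinarith
        calc η ^ (e + (m + 1) * e' + 2) * ((A 0).card * Pr) ≤
              (1 / 2) * (η ^ e / 2 * lam ^ m) * ((A 0).card * Pr) :=
              mul_le_mul_of_nonneg_right h3 (by positivity)
          _ = ((A 0).card / 2) * (η ^ e / 2 * (lam ^ m * Pr)) := by
              ring
          _ ≤ Fine.card * (η ^ e / 2 * (lam ^ m * Pr)) :=
              mul_le_mul_of_nonneg_right hFinec (by positivity)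
      · intro x _ y _ hxy
        rw [Function.onFun, Finset.disjoint_left]
        intro a ha hb
        rw [Finset.mem_image] at ha hb
        obtain ⟨b, _, hb1⟩ := ha
        obtain ⟨c, _, hc1⟩ := hb
        apply hxy
        have := congrFun (hb1.trans hc1.symm) 0
        simpa using this

end Pool.Agent.Helper433
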