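import Mathlib
import Pool.Agent.Helper433.Sel2
import Pool.Agent.Helper433.Geom

set_option autoImplicit false

namespace Pool.Agent.Helper433

open Finset

/-- All distances between distinct points of `T` are different. -/
def Rainbow {d : ℕ} (T : Finset (EuclideanSpace ℝ (Fin d))) : Prop :=
  ∀ a ∈ T, ∀ b ∈ T, ∀ c ∈ T, ∀ e ∈ T, a ≠ b → c ≠ e →
    dist a b = dist c e → (a = c ∧ b = e) ∨ (a = e ∧ b = c)

lemma final_bound (S e N : ℕ) (C1 : ℝ) (hC1 : 0 ≤ C1) (hN : 1 ≤ N) :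
    ∃ C : ℝ, 0 < C ∧ ∀ D : ℕ, 1 ≤ D → ∀ X : ℝ, C * (D : ℝ) ^ (3 / 4 : ℝ) ≤ X →
      2 * N * Real.exp (C1 * ((D + 2 : ℕ) : ℝ) ^ (3 / 4 : ℝ)) ≤
        ((1 / (2 * (((D + 2 : ℕ) : ℝ) + 2) ^ (2 * S))) ^ e) ^ 2 * Real.exp X := by
  refine ⟨Real.log (2 * N) + 2 * e * (1 + 2 * S * 7) + 3 * C1 + 1, ?_, ?_⟩
  · have : 0 ≤ Real.log (2 * N) := by
      apply Real.log_nonneg
      have : (1 : ℝ) ≤ N := by exact_mod_cast hN
      linarith
    positivity
  intro D hD X hX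
  have hD' : (1 : ℝ) ≤ D := by exact_mod_cast hD
  have hN' : (1 : ℝ) ≤ N := by exact_mod_cast hN
  set x : ℝ := (D : ℝ) ^ (3 / 4 : ℝ) with hx
  have hx1 : 1 ≤ x := Real.one_le_rpow hD' (by norm_num)
  have hlogN : 0 ≤ Real.log (2 * N) := Real.log_nonneg (by linarith)
  have h1 : ((D + 2 : ℕ) : ℝ) ^ (3 / 4 : ℝ) ≤ 3 * x := by
    push_cast
    calc ((D : ℝ) + 2) ^ (3 / 4 : ℝ) ≤ (3 * (D : ℝ)) ^ (3 / 4 : ℝ) :=
          Real.rpow_le_rpow (by positivity) (by linarith) (by norm_num)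
      _ = (3 : ℝ) ^ (3 / 4 : ℝ) * x := Real.mul_rpow (by norm_num) (by positivity)
      _ ≤ 3 * x := by
          apply mul_le_mul_of_nonneg_right _ (by positivity)
          calc (3 : ℝ) ^ (3 / 4 : ℝ) ≤ (3 : ℝ) ^ (1 : ℝ) :=
                Real.rpow_le_rpow_of_exponent_le (by norm_num) (by norm_num)
            _ = 3 := by norm_num
  have h2 : Real.log (((D + 2 : ℕ) : ℝ) + 2) ≤ 7 * x := by
    push_cast
    have h3 := Real.log_le_rpow_div (x := (D : ℝ) + 2 + 2) (by positivity) (ε := 3 / 4)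
      (by norm_num)
    have h4 : ((D : ℝ) + 2 + 2) ^ (3 / 4 : ℝ) ≤ 5 * x := by
      calc ((D : ℝ) + 2 + 2) ^ (3 / 4 : ℝ) ≤ (5 * (D : ℝ)) ^ (3 / 4 : ℝ) :=
            Real.rpow_le_rpow (by positivity) (by linarith) (by norm_num)
        _ = (5 : ℝ) ^ (3 / 4 : ℝ) * x := Real.mul_rpow (by norm_num) (by positivity)
        _ ≤ 5 * x := by
            apply mul_le_mul_of_nonneg_right _ (by positivity)
            calc (5 : ℝ) ^ (3 / 4 : ℝ) ≤ (5 : ℝ) ^ (1 : ℝ) :=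
                  Real.rpow_le_rpow_of_exponent_le (by norm_num) (by norm_num)
              _ = 5 := by norm_num
    calc Real.log ((D : ℝ) + 2 + 2) ≤ ((D : ℝ) + 2 + 2) ^ (3 / 4 : ℝ) / (3 / 4) := h3
      _ ≤ (5 * x) / (3 / 4) := div_le_div_of_nonneg_right h4 (by norm_num)
      _ ≤ 7 * x := by
          rw [div_le_iff₀ (by norm_num)]
          nlinarith
  set g : ℝ := ((D + 2 : ℕ) : ℝ) + 2 with hg
  have hgpos : 0 < g := by positivity
  have hW : (0 : ℝ) < (2 * g ^ (2 * S)) ^ (2 * e) := by positivity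
  have h5 : (((1 / (2 * g ^ (2 * S))) ^ e) ^ 2) = 1 / (2 * g ^ (2 * S)) ^ (2 * e) := by
    rw [← pow_mul, mul_comm e 2, one_div_pow]
  rw [h5]
  have h6 : Real.log ((2 * g ^ (2 * S)) ^ (2 * e)) ≤ 2 * e * (1 + 2 * S * 7) * x := by
    rw [Real.log_pow, Real.log_mul (by norm_num) (by positivity), Real.log_pow]
    push_cast
    have h7 : Real.log 2 + 2 * S * Real.log g ≤ (1 + 2 * S * 7) * x := by
      have h8 : Real.log 2 ≤ x := by linarith [Real.log_two_lt_d9]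
      have h9 : (2 : ℝ) * S * Real.log g ≤ 2 * S * (7 * x) :=
        mul_le_mul_of_nonneg_left h2 (by positivity)
      nlinarith
    calc (2 : ℝ) * e * (Real.log 2 + 2 * S * Real.log g) ≤ 2 * e * ((1 + 2 * S * 7) * x) :=
          mul_le_mul_of_nonneg_left h7 (by positivity)
      _ = _ := by ring
  have h7 : 2 * (N : ℝ) * (2 * g ^ (2 * S)) ^ (2 * e) *
      Real.exp (C1 * ((D + 2 : ℕ) : ℝ) ^ (3 / 4 : ℝ)) ≤ Real.exp X := by
    have h8 : 2 * (N : ℝ) = Real.exp (Real.log (2 * N)) := by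
      rw [Real.exp_log (by positivity)]
    have h9 : (2 * g ^ (2 * S)) ^ (2 * e) = Real.exp (Real.log ((2 * g ^ (2 * S)) ^ (2 * e))) := by
      rw [Real.exp_log hW]
    rw [h8, h9, ← Real.exp_add, ← Real.exp_add]
    apply Real.exp_le_exp.mpr
    refine le_trans ?_ hX
    have h10 : Real.log (2 * N) ≤ Real.log (2 * N) * x := by nlinarith
    have h11 : C1 * ((D + 2 : ℕ) : ℝ) ^ (3 / 4 : ℝ) ≤ C1 * (3 * x) :=
      mul_le_mul_of_nonneg_left h1 hC1
    nlinarith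
  calc 2 * (N : ℝ) * Real.exp (C1 * ((D + 2 : ℕ) : ℝ) ^ (3 / 4 : ℝ)) =
        1 / (2 * g ^ (2 * S)) ^ (2 * e) * (2 * (N : ℝ) * (2 * g ^ (2 * S)) ^ (2 * e) *
      Real.exp (C1 * ((D + 2 : ℕ) : ℝ) ^ (3 / 4 : ℝ))) := by field_simp
    _ ≤ 1 / (2 * g ^ (2 * S)) ^ (2 * e) * Real.exp X :=
        mul_le_mul_of_nonneg_left h7 (by positivity)

theorem main_lemma (n : ℕ) : ∃ C : ℝ, 0 < C ∧ ∀ (d : ℕ) (Y : Finset (EuclideanSpace ℝ (Fin d))),
    1 ≤ adim Y → ∀ lam : ℝ, (∀ Z ⊆ Y, Z.Nonempty →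
      Real.log Z.card ≤ Real.log Y.card - lam * ((adim Y : ℝ) - adim Z)) →
    C * (adim Y : ℝ) ^ (3 / 4 : ℝ) ≤ lam * adim Y → ∃ T ⊆ Y, T.card = n ∧ Rainbow T := by
  classical
  obtain ⟨e, he⟩ := sel n
  set S : ℕ := 1 + (n + 1) ^ 2 with hS
  set N : ℕ := 2 * (n + 1) with hN
  obtain ⟨C1, hC10, hC1⟩ := ndp S
  obtain ⟨C, hC0, hC⟩ := final_bound S e N C1 hC10 (by omega)
  refine ⟨C, hC0, ?_⟩
  intro d Y hD lam hmax hlam
  have hD' : (1 : ℝ) ≤ adim Y := by exact_mod_cast hD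
  have hYn : Y.Nonempty := by
    by_contra hcon
    rw [Finset.not_nonempty_iff_eq_empty] at hcon
    rw [hcon] at hD
    simp [adim] at hD
  have hYc : (0 : ℝ) < Y.card := by exact_mod_cast Finset.card_pos.mpr hYn
  have hlam0 : 0 ≤ lam := by
    have h1 : 0 ≤ lam * adim Y := le_trans (by positivity) hlam
    by_contra hcon
    push Not at hcon
    nlinarith
  obtain ⟨M', hRK, hM'⟩ := exists_RK Y
  have hcond := hC (adim Y) hD (lam * adim Y) hlam
  set η : ℝ := 1 / (2 * (((adim Y + 2 : ℕ) : ℝ) + 2) ^ (2 * S)) with hη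
  have hηpos : 0 < η := by positivity
  have hη2 : η ≤ 1 / 2 := by
    rw [hη]
    apply one_div_le_one_div_of_le (by norm_num)
    have h1 : (1 : ℝ) ≤ (((adim Y + 2 : ℕ) : ℝ) + 2) ^ (2 * S) := by
      apply one_le_pow₀
      have : (0 : ℝ) ≤ ((adim Y + 2 : ℕ) : ℝ) := by positivity
      linarith
    linarith
  have hNDP : NDP (fun a b : EuclideanSpace ℝ (Fin d) => ‖a - b‖ ^ 2) Y S N η (η ^ e) := by
    refine hC1 (adim Y + 2) (by omega) _ Y _ M' hRK hM' (lam * adim Y) ?_ N (η ^ e)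
      (by positivity) hcond
    intro A hA B hB hAn hBn ρ σ hM
    have h1 := lenz Y A B hA hB ρ σ hM
    have h1' : (adim A : ℝ) + adim B ≤ adim Y := by exact_mod_cast h1
    have h2 := hmax A hA hAn
    have h3 := hmax B hB hBn
    have hAc : (0 : ℝ) < A.card := by exact_mod_cast Finset.card_pos.mpr hAn
    have hBc : (0 : ℝ) < B.card := by exact_mod_cast Finset.card_pos.mpr hBn
    have h4 : Real.log A.card + Real.log B.card + lam * adim Y ≤ 2 * Real.log Y.card := by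
      nlinarith
    have h5 : Real.exp (Real.log A.card + Real.log B.card + lam * adim Y) ≤
        Real.exp (2 * Real.log Y.card) := Real.exp_le_exp.mpr h4
    rw [Real.exp_add, Real.exp_add, Real.exp_log hAc, Real.exp_log hBc, two_mul, Real.exp_add,
      Real.exp_log hYc] at h5
    rw [sq]
    exact h5
  obtain ⟨F, hF, hFc⟩ := he _ Y (fun a b => ‖a - b‖ ^ 2) (fun a b => by
      rw [norm_sub_rev]) S N η (η ^ e) hηpos hη2 (by omega) hNDP 1 (by omega)
    (fun _ => Y) (fun _ _ => {0}) (fun _ => Finset.Subset.refl _) (fun _ => le_refl _)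
    (fun _ _ => by simp)
  have hFpos : (0 : ℝ) < F.card := by
    refine lt_of_lt_of_le ?_ hFc
    apply mul_pos (by positivity)
    exact Finset.prod_pos (fun _ _ => hYc)
  obtain ⟨a, ha⟩ := Finset.card_pos.mp (by exact_mod_cast hFpos : 0 < F.card)
  obtain ⟨haY, hgood1, hgood2⟩ := hF a ha
  have hinj : Function.Injective a := by
    intro i j hij
    by_contra hne
    apply hgood1 i j hne
    rw [hij]
    simp
  refine ⟨Finset.univ.image a, ?_, ?_, ?_⟩
  · intro x hx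
    rw [Finset.mem_image] at hx
    obtain ⟨i, _, rfl⟩ := hx
    exact haY i
  · rw [Finset.card_image_of_injective _ hinj]
    simp
  · intro x hx y hy z hz w hw hxy hzw hdist
    rw [Finset.mem_image] at hx hy hz hw
    obtain ⟨i, _, rfl⟩ := hx
    obtain ⟨j, _, rfl⟩ := hy
    obtain ⟨k, _, rfl⟩ := hz
    obtain ⟨l, _, rfl⟩ := hw
    have hij : i ≠ j := fun h => hxy (by rw [h])
    have hkl : k ≠ l := fun h => hzw (by rw [h])
    have h1 := hgood2 i j k l hij hkl (by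
      simp only
      rw [← dist_eq_norm, ← dist_eq_norm, hdist])
    rcases h1 with ⟨h1, h2⟩ | ⟨h1, h2⟩
    · left
      exact ⟨by rw [h1], by rw [h2]⟩
    · right
      exact ⟨by rw [h1], by rw [h2]⟩

/-- Sets without rainbow `n`-subset have size exponentially bounded in their dimension. -/
theorem triv_bound (n : ℕ) : ∃ C : ℝ, 0 < C ∧ ∀ (d : ℕ) (Y : Finset (EuclideanSpace ℝ (Fin d))),
    Y.Nonempty → (¬ ∃ T ⊆ Y, T.card = n ∧ Rainbow T) → Real.log Y.card ≤ C * adim Y := by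
  classical
  obtain ⟨C, hC0, hC⟩ := main_lemma n
  refine ⟨C, hC0, ?_⟩
  intro d Y hY hno
  -- choose `W` maximizing `log |W| - C dim W`
  obtain ⟨W, hW, hWmax⟩ := Finset.exists_max_image (Y.powerset.filter (fun W => W.Nonempty))
    (fun W => Real.log W.card - C * adim W) ⟨Y, by simp [hY]⟩
  rw [Finset.mem_filter, Finset.mem_powerset] at hW
  obtain ⟨hWY, hWn⟩ := hW
  have hmaxY := hWmax Y (by simp [hY])
  rcases Nat.eq_zero_or_pos (adim W) with h0 | hpos
  · -- `W` is a single point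
    have hcard : W.card = 1 := by
      obtain ⟨w, hw⟩ := hWn
      rw [Finset.card_eq_one]
      refine ⟨w, ?_⟩
      ext z
      rw [Finset.mem_singleton]
      constructor
      · intro hz
        unfold adim at h0
        rw [Submodule.finrank_eq_zero] at h0
        have := vsub_mem_vectorSpan ℝ (s := (W : Set (EuclideanSpace ℝ (Fin d))))
          (by exact_mod_cast hz) (by exact_mod_cast hw)
        rw [h0, Submodule.mem_bot, vsub_eq_zero_iff_eq] at this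
        exact this
      · rintro rfl
        exact hw
    rw [hcard, h0] at hmaxY
    simp at hmaxY
    linarith
  · exfalso
    apply hno
    obtain ⟨T, hT, hTc, hTR⟩ := hC d W hpos C (by
      intro Z hZ hZn
      have := hWmax Z (by
        rw [Finset.mem_filter, Finset.mem_powerset]
        exact ⟨hZ.trans hWY, hZn⟩)
      linarith) (by
      have h1 : (1 : ℝ) ≤ adim W := by exact_mod_cast hpos
      apply mul_le_mul_of_nonneg_left _ hC0.le
      calc (adim W : ℝ) ^ (3 / 4 : ℝ) ≤ (adim W : ℝ) ^ (1 : ℝ) :=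
            Real.rpow_le_rpow_of_exponent_le h1 (by norm_num)
        _ = adim W := by norm_num)
    exact ⟨T, hT.trans hWY, hTc, hTR⟩

theorem main_thm (n : ℕ) (ε : ℝ) (hε : 0 < ε) : ∃ D0 : ℕ, ∀ d : ℕ, D0 ≤ d →
    ∀ S : Finset (EuclideanSpace ℝ (Fin d)), (2 : ℝ) ^ (ε * (d : ℝ)) ≤ (S.card : ℝ) →
      ∃ T ⊆ S, T.card = n ∧ Rainbow T := by
  classical
  obtain ⟨C, hC0, hC⟩ := main_lemma n
  obtain ⟨C2, hC20, hC2⟩ := triv_bound n
  set δ : ℝ := ε * Real.log 2 / 2 with hδ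
  have hlog2 : 0 < Real.log 2 := Real.log_pos (by norm_num)
  have hδpos : 0 < δ := by positivity
  -- `D ≥ δ d / C2` and we need `C D^{3/4} ≤ δ D`, i.e. `D ≥ (C/δ)^4`
  obtain ⟨D0, hD0⟩ := exists_nat_gt (C2 / δ * ((C / δ) ^ 4 + 1))
  refine ⟨D0, ?_⟩
  intro d hd S hS
  have hdpos : (0 : ℝ) < d := by
    have h1 : (D0 : ℝ) ≤ d := by exact_mod_cast hd
    have h2 : 0 < C2 / δ * ((C / δ) ^ 4 + 1) := by positivity
    linarith
  have hSpos : (0 : ℝ) < S.card := lt_of_lt_of_le (by positivity) hS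
  have hSn : S.Nonempty := Finset.card_pos.mp (by exact_mod_cast hSpos)
  have hlogS : ε * d * Real.log 2 ≤ Real.log S.card := by
    have := Real.log_le_log (by positivity) hS
    rwa [Real.log_rpow (by norm_num)] at this
  by_contra hno
  obtain ⟨Y, hY, hYmax⟩ := Finset.exists_max_image (S.powerset.filter (fun W => W.Nonempty))
    (fun W => Real.log W.card - δ * adim W) ⟨S, by simp [hSn]⟩
  rw [Finset.mem_filter, Finset.mem_powerset] at hY
  obtain ⟨hYS, hYn⟩ := hY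
  have hmaxS := hYmax S (by simp [hSn])
  have hnoY : ¬ ∃ T ⊆ Y, T.card = n ∧ Rainbow T := by
    rintro ⟨T, hT, h⟩
    exact hno ⟨T, hT.trans hYS, h⟩
  have h1 : (adim S : ℝ) ≤ d := by exact_mod_cast adim_le S
  have h2 : δ * d ≤ Real.log Y.card := by
    have h3 : 0 ≤ δ * (adim Y : ℝ) := by positivity
    have h4 : δ * (adim S : ℝ) ≤ δ * d := mul_le_mul_of_nonneg_left h1 hδpos.le
    have h5 : ε * d * Real.log 2 = 2 * (δ * d) := by rw [hδ]; ring
    linarith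
  have h3 := hC2 d Y hYn hnoY
  have h4 : (C / δ) ^ 4 + 1 < adim Y := by
    have h5 : (D0 : ℝ) ≤ d := by exact_mod_cast hd
    have h6 : C2 / δ * ((C / δ) ^ 4 + 1) < d := lt_of_lt_of_le hD0 h5
    have h7 : δ * d ≤ C2 * adim Y := h2.trans h3
    have h8 : C2 * ((C / δ) ^ 4 + 1) < δ * d := by
      have : C2 * ((C / δ) ^ 4 + 1) = δ * (C2 / δ * ((C / δ) ^ 4 + 1)) := by field_simp
      rw [this]
      exact mul_lt_mul_of_pos_left h6 hδpos
    have h9 : C2 * ((C / δ) ^ 4 + 1) < C2 * adim Y := lt_of_lt_of_le h8 h7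
    exact lt_of_mul_lt_mul_left h9 hC20.le
  have h5 : (0 : ℝ) < (C / δ) ^ 4 := by positivity
  have hD1 : 1 ≤ adim Y := by
    have : (1 : ℝ) < adim Y := by linarith
    exact_mod_cast this.le
  have hDpos : (0 : ℝ) < adim Y := by linarith
  apply hnoY
  refine hC d Y hD1 δ ?_ ?_
  · intro Z hZ hZn
    have := hYmax Z (by
      rw [Finset.mem_filter, Finset.mem_powerset]
      exact ⟨hZ.trans hYS, hZn⟩)
    linarith
  · -- `C D^{3/4} ≤ δ D`
    have h6 : C / δ ≤ (adim Y : ℝ) ^ (1 / 4 : ℝ) := by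
      have h7 : ((C / δ) ^ 4) ^ (1 / 4 : ℝ) ≤ (adim Y : ℝ) ^ (1 / 4 : ℝ) :=
        Real.rpow_le_rpow h5.le (by linarith) (by norm_num)
      have h8 : ((C / δ) ^ 4) ^ (1 / 4 : ℝ) = C / δ := by
        rw [← Real.rpow_natCast (C / δ) 4, ← Real.rpow_mul (by positivity)]
        norm_num
      rwa [h8] at h7
    have h7 : (adim Y : ℝ) = (adim Y : ℝ) ^ (1 / 4 : ℝ) * (adim Y : ℝ) ^ (3 / 4 : ℝ) := by
      rw [← Real.rpow_add hDpos]
      norm_num
    have h8 : C ≤ δ * (adim Y : ℝ) ^ (1 / 4 : ℝ) := by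
      rw [div_le_iff₀ hδpos] at h6
      linarith
    calc C * (adim Y : ℝ) ^ (3 / 4 : ℝ) ≤
          (δ * (adim Y : ℝ) ^ (1 / 4 : ℝ)) * (adim Y : ℝ) ^ (3 / 4 : ℝ) :=
          mul_le_mul_of_nonneg_right h8 (by positivity)
      _ = δ * ((adim Y : ℝ) ^ (1 / 4 : ℝ) * (adim Y : ℝ) ^ (3 / 4 : ℝ)) := by ring
      _ = δ * adim Y := by rw [← h7]

end Pool.Agent.Helper433
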